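import Pool.Agent.Helper17.RZ.St2

/-!
# RZ-B3: the Cech DG algebra and global endomorphisms
-/

set_option autoImplicit false
set_option linter.unusedSimpArgs false
set_option linter.unusedSectionVars false

namespace Pool.Agent.Helper28.RZ

open Pool.Agent.Helper17.RZ

universe u v

noncomputable section

variable {k : Type u} [Field k] {L : Type u} [Field L] [Algebra k L] {I : Type} [LinearOrder I]

theorem rawD_add (X Y : GrD k L) (n : ℤ) (a b : Finset I → (X.V →ₗ[L] Y.V)) (σ : Finset I) :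
    rawD X Y n (fun τ => a τ + b τ) σ = rawD X Y n a σ + rawD X Y n b σ := by
  unfold rawD
  rw [cdel_add, LinearMap.comp_add, LinearMap.comp_add, LinearMap.add_comp, smul_add]
  abel

theorem rawD_sub (X Y : GrD k L) (n : ℤ) (a b : Finset I → (X.V →ₗ[L] Y.V)) (σ : Finset I) :
    rawD X Y n (fun τ => a τ - b τ) σ = rawD X Y n a σ - rawD X Y n b σ := by
  unfold rawD
  rw [cdel_sub, LinearMap.comp_sub, LinearMap.comp_sub, LinearMap.sub_comp, smul_sub]
  abel

/-- the cochain with value `φ` at the empty set -/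
def em {M : Type u} [AddCommGroup M] (φ : M) : Finset I → M := fun σ => if σ.card = 0 then φ else 0

/-- the constant cochain -/
def cst {M : Type u} [AddCommGroup M] (φ : M) : Finset I → M := fun σ => if σ.card = 1 then φ else 0

theorem cdel_em {M : Type u} [AddCommGroup M] (φ : M) (σ : Finset I) : cdel (em φ) σ = cst φ σ := by
  unfold cdel em cst
  by_cases h : σ.card = 1
  · obtain ⟨i, rfl⟩ := Finset.card_eq_one.1 h
    rw [Finset.sum_singleton, if_pos (by simp), if_pos h]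
    have : sg ({i} : Finset I) i = 1 := by
      unfold sg
      rw [Finset.filter_false_of_mem]
      · simp
      · intro x hx
        rw [Finset.mem_singleton] at hx
        rw [hx]
        exact lt_irrefl i
    rw [this, one_smul]
  · rw [if_neg h]
    apply Finset.sum_eq_zero
    intro i hi
    have h1 := Finset.card_erase_add_one hi
    rw [if_neg (by omega), smul_zero]

theorem cdel_cst {M : Type u} [AddCommGroup M] (φ : M) (σ : Finset I) : cdel (cst φ) σ = 0 := by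
  have h : (cst φ : Finset I → M) = cdel (em φ) := by
    funext τ
    exact (cdel_em φ τ).symm
  rw [h, cdel_cdel]

theorem em_empty {M : Type u} [AddCommGroup M] (φ : M) : em φ (∅ : Finset I) = φ := by simp [em]

theorem em_of_nonempty {M : Type u} [AddCommGroup M] (φ : M) {σ : Finset I} (h : σ.Nonempty) :
    em φ σ = 0 := by
  unfold em
  rw [if_neg]
  exact (Finset.card_pos.2 h).ne'

variable (S : LocSys.{u, v} k L I) (X : S.Obj)

/-- augmented homogeneous cochains -/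
def Aug (n : ℤ) (c : Finset I → ((S.G X).V →ₗ[L] (S.G X).V)) : Prop :=
  ∀ σ, c σ ∈ S.H X X σ ∧ IsDeg (X := S.G X) (Y := S.G X) (n - ((σ.card : ℤ) - 1)) (c σ)

variable {S X}

theorem Aug.add {n : ℤ} {a b : Finset I → ((S.G X).V →ₗ[L] (S.G X).V)} (ha : Aug S X n a)
    (hb : Aug S X n b) : Aug S X n (fun σ => a σ + b σ) :=
  fun σ => ⟨(S.H X X σ).add_mem (ha σ).1 (hb σ).1, (ha σ).2.add (hb σ).2⟩

theorem Aug.sub {n : ℤ} {a b : Finset I → ((S.G X).V →ₗ[L] (S.G X).V)} (ha : Aug S X n a)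
    (hb : Aug S X n b) : Aug S X n (fun σ => a σ - b σ) :=
  fun σ => ⟨(S.H X X σ).sub_mem (ha σ).1 (hb σ).1, (ha σ).2.sub (hb σ).2⟩

theorem mono' (hm : ∀ σ, S.H X X ∅ ≤ S.H X X σ) {σ τ : Finset I} (h : σ ⊆ τ) :
    S.H X X σ ≤ S.H X X τ := by
  rcases σ.eq_empty_or_nonempty with rfl | hne
  · exact hm τ
  · exact S.mono X X σ τ hne h

theorem Aug.rawD (hm : ∀ σ, S.H X X ∅ ≤ S.H X X σ) {n : ℤ}
    {c : Finset I → ((S.G X).V →ₗ[L] (S.G X).V)} (hc : Aug S X n c) :
    Aug S X (n + 1) (rawD (S.G X) (S.G X) n c) := by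
  intro σ
  refine ⟨?_, ?_⟩
  · refine Submodule.sub_mem _ (Submodule.add_mem _ ?_ ?_) ?_
    · refine S.comp_mem X X X σ _ _ (S.P_mem X σ) ?_
      refine Submodule.sum_mem _ fun i _ => ?_
      exact zsmul_mem (mono' hm (Finset.erase_subset i σ) (hc _).1) _
    · exact S.comp_mem X X X σ _ _ (S.d_mem X σ) (hc σ).1
    · exact zsmul_mem (S.comp_mem X X X σ _ _ (hc σ).1 (S.d_mem X σ)) _
  · refine IsDeg.sub (IsDeg.add ?_ ?_) ?_
    · have : IsDeg (X := S.G X) (Y := S.G X) (n + 1 - ((σ.card : ℤ) - 1)) (cdel c σ) := by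
        refine IsDeg.sum _ _ fun i hi' => ?_
        refine IsDeg.zsmul _ ?_
        have h1 := (hc (σ.erase i)).2
        have h2 := Finset.card_erase_add_one hi'
        have h3 : n - (((σ.erase i).card : ℤ) - 1) = n + 1 - ((σ.card : ℤ) - 1) := by omega
        rw [h3] at h1; exact h1
      have h1 := (IsDeg.P (X := S.G X)).comp this
      rw [zero_add] at h1; exact h1
    · have h1 := (IsDeg.d (X := S.G X)).comp (hc σ).2
      rw [show 1 + (n - ((σ.card : ℤ) - 1)) = n + 1 - ((σ.card : ℤ) - 1) by ring] at h1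
      exact h1
    · have h1 := ((hc σ).2).comp (IsDeg.d (X := S.G X))
      rw [show (n - ((σ.card : ℤ) - 1)) + 1 = n + 1 - ((σ.card : ℤ) - 1) by ring] at h1
      exact h1.zsmul _

theorem P_P_comp {W : Type u} [AddCommGroup W] [Module L W] (G : GrD k L) (f : W →ₗ[L] G.V) :
    G.P ∘ₗ (G.P ∘ₗ f) = f := by
  rw [← LinearMap.comp_assoc, G.P_P, LinearMap.id_comp]

/-- the augmented complex is acyclic -/
theorem acyclic (hm : ∀ σ, S.H X X ∅ ≤ S.H X X σ)
    (hac : ∀ (m : ℤ) (c : Finset I → ((S.G X).V →ₗ[L] (S.G X).V)),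
      (∀ σ, c σ ∈ S.H X X σ ∧ IsDeg (X := S.G X) (Y := S.G X) m (c σ)) → (∀ σ, cdel c σ = 0) →
      ∃ b : Finset I → ((S.G X).V →ₗ[L] (S.G X).V),
        (∀ σ, b σ ∈ S.H X X σ ∧ IsDeg (X := S.G X) (Y := S.G X) m (b σ)) ∧ ∀ σ, cdel b σ = c σ)
    (n : ℤ) (q : ℕ) : ∀ c : Finset I → ((S.G X).V →ₗ[L] (S.G X).V), Aug S X (n + 1) c →
      (∀ σ, rawD (S.G X) (S.G X) (n + 1) c σ = 0) → (∀ σ : Finset I, q ≤ σ.card → c σ = 0) →
      ∃ e, Aug S X n e ∧ ∀ σ, rawD (S.G X) (S.G X) n e σ = c σ := by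
  induction q with
  | zero =>
    intro c _ _ hz
    refine ⟨fun _ => 0, fun σ => ⟨Submodule.zero_mem _, IsDeg.zero⟩, fun σ => ?_⟩
    rw [hz σ (Nat.zero_le _)]
    simp [rawD, cdel]
  | succ q ih =>
    intro c hc hD hz
    obtain ⟨b, hb, hbc⟩ := hac (n + 2 - q) (fun σ => if σ.card = q then c σ else 0) (by
      intro σ
      by_cases h : σ.card = q
      · simp only [if_pos h]
        refine ⟨(hc σ).1, ?_⟩
        have h1 := (hc σ).2
        rw [show n + 1 - ((σ.card : ℤ) - 1) = n + 2 - q by rw [h]; ring] at h1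
        exact h1
      · simp only [if_neg h]
        exact ⟨Submodule.zero_mem _, IsDeg.zero⟩) (by
      intro σ
      by_cases h : σ.card = q + 1
      · have h1 : cdel (fun σ => if σ.card = q then c σ else 0) σ = cdel c σ := by
          unfold cdel
          apply Finset.sum_congr rfl
          intro i hi'
          have h2 := Finset.card_erase_add_one hi'
          dsimp only
          rw [if_pos (by omega)]
        rw [h1]
        have h2 := hD σ
        unfold rawD at h2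
        rw [hz σ (by omega), LinearMap.comp_zero, LinearMap.zero_comp, smul_zero, add_zero,
          sub_zero] at h2
        have h3 := P_P_comp (S.G X) (cdel c σ)
        rw [h2, LinearMap.comp_zero] at h3
        exact h3.symm
      · unfold cdel
        apply Finset.sum_eq_zero
        intro i hi'
        have h2 := Finset.card_erase_add_one hi'
        dsimp only
        rw [if_neg (by omega), smul_zero])
    set e1 : Finset I → ((S.G X).V →ₗ[L] (S.G X).V) :=
      fun σ => (S.G X).P ∘ₗ (if σ.card + 1 = q then b σ else 0) with he1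
    have hA1 : Aug S X n e1 := by
      intro σ
      by_cases h : σ.card + 1 = q
      · have h0 : e1 σ = (S.G X).P ∘ₗ b σ := by rw [he1]; simp only [if_pos h]
        rw [h0]
        refine ⟨S.comp_mem X X X σ _ _ (S.P_mem X σ) (hb σ).1, ?_⟩
        have h1 := (IsDeg.P (X := S.G X)).comp (hb σ).2
        rw [show 0 + (n + 2 - (q : ℤ)) = n - ((σ.card : ℤ) - 1) by rw [← h]; push_cast; ring] at h1
        exact h1
      · have h0 : e1 σ = 0 := by rw [he1]; simp only [if_neg h, LinearMap.comp_zero]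
        rw [h0]
        exact ⟨Submodule.zero_mem _, IsDeg.zero⟩
    have hD1 : ∀ σ : Finset I, q ≤ σ.card → rawD (S.G X) (S.G X) n e1 σ = c σ := by
      intro σ hσ
      have h0 : e1 σ = 0 := by
        rw [he1]; simp only [if_neg (show ¬ σ.card + 1 = q by omega), LinearMap.comp_zero]
      have h1 : cdel e1 σ = (S.G X).P ∘ₗ cdel (fun σ => if σ.card + 1 = q then b σ else 0) σ := by
        rw [he1, cdel_comp_left]
      unfold rawD
      rw [h0, LinearMap.comp_zero, LinearMap.zero_comp, smul_zero, add_zero, sub_zero, h1,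
        P_P_comp]
      by_cases h : σ.card = q
      · have h2 : cdel (fun σ => if σ.card + 1 = q then b σ else 0) σ = cdel b σ := by
          unfold cdel
          apply Finset.sum_congr rfl
          intro i hi'
          have h2 := Finset.card_erase_add_one hi'
          dsimp only
          rw [if_pos (by omega)]
        rw [h2, hbc, if_pos h]
      · rw [hz σ (by omega)]
        unfold cdel
        apply Finset.sum_eq_zero
        intro i hi'
        have h2 := Finset.card_erase_add_one hi'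
        dsimp only
        rw [if_neg (by omega), smul_zero]
    obtain ⟨e2, hA2, hD2⟩ := ih (fun σ => c σ - rawD (S.G X) (S.G X) n e1 σ)
      (hc.sub (hA1.rawD hm)) (fun σ => by
        rw [rawD_sub, hD, zero_sub, neg_eq_zero]
        exact rawD_rawD (S.G X) (S.G X) n e1 σ) (fun σ hσ => by
        change c σ - rawD (S.G X) (S.G X) n e1 σ = 0
        rw [hD1 σ hσ, sub_self])
    refine ⟨fun σ => e1 σ + e2 σ, hA1.add hA2, fun σ => ?_⟩
    rw [rawD_add, hD2]
    abel

theorem acyclic' [Fintype I] (hm : ∀ σ, S.H X X ∅ ≤ S.H X X σ)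
    (hac : ∀ (m : ℤ) (c : Finset I → ((S.G X).V →ₗ[L] (S.G X).V)),
      (∀ σ, c σ ∈ S.H X X σ ∧ IsDeg (X := S.G X) (Y := S.G X) m (c σ)) → (∀ σ, cdel c σ = 0) →
      ∃ b : Finset I → ((S.G X).V →ₗ[L] (S.G X).V),
        (∀ σ, b σ ∈ S.H X X σ ∧ IsDeg (X := S.G X) (Y := S.G X) m (b σ)) ∧ ∀ σ, cdel b σ = c σ)
    (n n' : ℤ) (hn : n + 1 = n') (c : Finset I → ((S.G X).V →ₗ[L] (S.G X).V)) (hc : Aug S X n' c)
    (hD : ∀ σ, rawD (S.G X) (S.G X) n' c σ = 0) :
      ∃ e, Aug S X n e ∧ ∀ σ, rawD (S.G X) (S.G X) n e σ = c σ := by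
  subst hn
  refine acyclic hm hac n (Fintype.card I + 1) c hc hD fun σ hσ => ?_
  have := Finset.card_le_univ σ
  omega

theorem cst_mem (hm : ∀ σ, S.H X X ∅ ≤ S.H X X σ) {n : ℤ} {φ : (S.G X).V →ₗ[L] (S.G X).V}
    (h : φ ∈ S.gl X n) : (cst φ : Finset I → _) ∈ S.Hom X X n := by
  refine ⟨by simp [cst], fun σ _ => ?_⟩
  unfold cst
  split_ifs with h1
  · refine ⟨hm σ h.1, ?_⟩
    rw [h1]
    simpa using h.2
  · exact ⟨Submodule.zero_mem _, IsDeg.zero⟩

theorem cst_eq_comp (φ : (S.G X).V →ₗ[L] (S.G X).V) (σ : Finset I) :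
    cst φ σ = φ ∘ₗ cone1 (S.G X).V σ := by
  unfold cst cone1
  split_ifs
  · rw [LinearMap.comp_id]
  · rw [LinearMap.comp_zero]

/-- global endomorphisms as constant cochains -/
def gmor (hm : ∀ σ, S.H X X ∅ ≤ S.H X X σ) : DGA.Mor (S.glob X) (S.dg.End X) where
  f n :=
    { toFun := fun φ => ⟨cst φ.1, cst_mem hm φ.2⟩
      map_add' := fun a b => Subtype.ext (funext fun σ => by
        change cst (a.1 + b.1) σ = cst a.1 σ + cst b.1 σ
        unfold cst
        split_ifs <;> simp)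
      map_smul' := fun r a => Subtype.ext (funext fun σ => by
        change cst (r • a.1) σ = r • cst a.1 σ
        unfold cst
        split_ifs <;> simp) }
  f_one := rfl
  f_mul {n m l} h x y := Subtype.ext (funext fun σ => by
    change cst (x.1 ∘ₗ y.1) σ = ccup (cst x.1) (cst y.1) σ
    have h1 : ccup (cst x.1) (cst y.1) σ = x.1 ∘ₗ ccup (cone1 (S.G X).V) (cst y.1) σ := by
      unfold ccup
      rw [lcomp_sum]
      apply Finset.sum_congr rfl
      intro i _
      rw [cst_eq_comp, LinearMap.comp_assoc]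
    rw [h1, cone_ccup _ (by simp [cst]), cst_eq_comp, cst_eq_comp, LinearMap.comp_assoc])
  f_d {n m} h x := Subtype.ext (funext fun σ => by
    change cst ((S.G X).d ∘ₗ x.1 - ((n.negOnePow : ℤˣ) : ℤ) • (x.1 ∘ₗ (S.G X).d)) σ =
      rawD (S.G X) (S.G X) n (cst x.1) σ
    unfold rawD
    rw [cdel_cst, LinearMap.comp_zero, zero_add]
    unfold cst
    split_ifs
    · rfl
    · simp)

theorem negOnePow_succ' {l n : ℤ} (h : l + 1 = n) :
    ((n.negOnePow : ℤˣ) : ℤ) = - ((l.negOnePow : ℤˣ) : ℤ) := by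
  subst h
  rw [Int.negOnePow_succ]; simp

theorem P_d_comp {W : Type u} [AddCommGroup W] [Module L W] (G : GrD k L) (f : W →ₗ[L] G.V) :
    G.P ∘ₗ (G.d ∘ₗ f) = -(G.d ∘ₗ (G.P ∘ₗ f)) := by
  rw [← LinearMap.comp_assoc, G.P_d, LinearMap.neg_comp, LinearMap.comp_assoc]

theorem rawD_em (n : ℤ) (ψ : (S.G X).V →ₗ[L] (S.G X).V) (σ : Finset I) :
    rawD (S.G X) (S.G X) n (em ψ) σ = cst ((S.G X).P ∘ₗ ψ) σ +
      em ((S.G X).d ∘ₗ ψ - ((n.negOnePow : ℤˣ) : ℤ) • (ψ ∘ₗ (S.G X).d)) σ := by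
  unfold rawD
  rw [cdel_em, add_sub_assoc]
  congr 1
  · unfold cst
    split_ifs
    · rfl
    · rw [LinearMap.comp_zero]
  · unfold em
    split_ifs
    · rfl
    · simp

theorem cst_zero (σ : Finset I) : cst (0 : (S.G X).V →ₗ[L] (S.G X).V) σ = 0 := by
  unfold cst; split_ifs <;> rfl

theorem em_zero (σ : Finset I) : em (0 : (S.G X).V →ₗ[L] (S.G X).V) σ = 0 := by
  unfold em; split_ifs <;> rfl

theorem gmor_qiso [Fintype I] (hm : ∀ σ, S.H X X ∅ ≤ S.H X X σ)
    (hac : ∀ (m : ℤ) (c : Finset I → ((S.G X).V →ₗ[L] (S.G X).V)),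
      (∀ σ, c σ ∈ S.H X X σ ∧ IsDeg (X := S.G X) (Y := S.G X) m (c σ)) → (∀ σ, cdel c σ = 0) →
      ∃ b : Finset I → ((S.G X).V →ₗ[L] (S.G X).V),
        (∀ σ, b σ ∈ S.H X X σ ∧ IsDeg (X := S.G X) (Y := S.G X) m (b σ)) ∧ ∀ σ, cdel b σ = c σ) :
    (gmor hm).QIso := by
  constructor
  · intro l n m h₁ h₂ x y hx hxy
    obtain ⟨φ, hφ⟩ := x
    obtain ⟨b, hb⟩ := y
    have hx' : (S.G X).d ∘ₗ φ - ((n.negOnePow : ℤˣ) : ℤ) • (φ ∘ₗ (S.G X).d) = 0 :=
      congrArg Subtype.val hx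
    have hxy' : ∀ σ, cst φ σ = rawD (S.G X) (S.G X) l b σ := fun σ =>
      congrFun (congrArg Subtype.val hxy) σ
    -- the augmented cochain
    have hA : Aug S X l (fun σ => b σ + em (-((S.G X).P ∘ₗ φ)) σ) := by
      intro σ
      rcases σ.eq_empty_or_nonempty with rfl | hne
      · change b ∅ + em (-((S.G X).P ∘ₗ φ)) ∅ ∈ S.H X X ∅ ∧
          IsDeg (X := S.G X) (Y := S.G X) _ (b ∅ + em (-((S.G X).P ∘ₗ φ)) ∅)
        rw [hb.1, em_empty, zero_add]
        refine ⟨Submodule.neg_mem _ (S.comp_mem X X X ∅ _ _ (S.P_mem X ∅) hφ.1), IsDeg.neg ?_⟩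
        have h1 := (IsDeg.P (X := S.G X)).comp hφ.2
        rw [show 0 + n = l - (((∅ : Finset I).card : ℤ) - 1) by rw [Finset.card_empty]; omega] at h1
        exact h1
      · change b σ + em (-((S.G X).P ∘ₗ φ)) σ ∈ S.H X X σ ∧
          IsDeg (X := S.G X) (Y := S.G X) _ (b σ + em (-((S.G X).P ∘ₗ φ)) σ)
        rw [em_of_nonempty _ hne, add_zero]
        exact hb.2 σ hne
    have hD : ∀ σ, rawD (S.G X) (S.G X) l (fun σ => b σ + em (-((S.G X).P ∘ₗ φ)) σ) σ = 0 := by
      intro σ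
      rw [rawD_add, ← hxy', rawD_em]
      have e1 : (S.G X).P ∘ₗ (-((S.G X).P ∘ₗ φ)) = -φ := by
        rw [LinearMap.comp_neg, P_P_comp]
      have e2 : (S.G X).d ∘ₗ (-((S.G X).P ∘ₗ φ)) -
          ((l.negOnePow : ℤˣ) : ℤ) • ((-((S.G X).P ∘ₗ φ)) ∘ₗ (S.G X).d) = 0 := by
        have e3 : (S.G X).P ∘ₗ ((S.G X).d ∘ₗ φ - ((n.negOnePow : ℤˣ) : ℤ) • (φ ∘ₗ (S.G X).d)) =
            0 := by rw [hx', LinearMap.comp_zero]
        rw [negOnePow_succ' h₁, LinearMap.comp_sub, P_d_comp, LinearMap.comp_smul] at e3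
        rw [LinearMap.comp_neg, LinearMap.neg_comp, LinearMap.comp_assoc, ← e3]
        simp only [neg_smul, smul_neg]
      rw [e1, e2, em_zero, add_zero]
      unfold cst
      split_ifs <;> simp
    obtain ⟨e, he, heD⟩ := acyclic' hm hac (l - 1) l (by ring) _ hA hD
    have h0 := heD ∅
    change _ = b ∅ + em (-((S.G X).P ∘ₗ φ)) ∅ at h0
    rw [hb.1, em_empty, zero_add] at h0
    unfold rawD at h0
    have hcd : cdel e ∅ = 0 := by simp [cdel]
    rw [hcd, LinearMap.comp_zero, zero_add] at h0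
    have hdeg := (he ∅).2
    rw [show l - 1 - (((∅ : Finset I).card : ℤ) - 1) = l by rw [Finset.card_empty]; simp] at hdeg
    refine ⟨⟨(S.G X).P ∘ₗ e ∅, S.comp_mem X X X ∅ _ _ (S.P_mem X ∅) (he ∅).1, ?_⟩,
      Subtype.ext ?_⟩
    · have h1 := (IsDeg.P (X := S.G X)).comp hdeg
      rw [zero_add] at h1
      exact h1
    · change φ = (S.G X).d ∘ₗ ((S.G X).P ∘ₗ e ∅) -
        ((l.negOnePow : ℤˣ) : ℤ) • (((S.G X).P ∘ₗ e ∅) ∘ₗ (S.G X).d)
      have h1 := congrArg (fun f => (S.G X).P ∘ₗ f) h0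
      simp only [LinearMap.comp_neg, P_P_comp] at h1
      rw [LinearMap.comp_sub, P_d_comp, LinearMap.comp_smul] at h1
      have h2 : φ = -(-((S.G X).d ∘ₗ ((S.G X).P ∘ₗ e ∅)) -
        (((l - 1).negOnePow : ℤˣ) : ℤ) • ((S.G X).P ∘ₗ (e ∅ ∘ₗ (S.G X).d))) := by
        rw [h1, neg_neg]
      rw [h2, negOnePow_succ' (show l - 1 + 1 = l by ring), LinearMap.comp_assoc]
      simp only [neg_smul, neg_sub, sub_neg_eq_add]
      abel
  · intro l n m h₁ h₂ y hy
    obtain ⟨c, hc⟩ := y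
    have hy' : ∀ σ, rawD (S.G X) (S.G X) n c σ = 0 := fun σ =>
      congrFun (congrArg Subtype.val hy) σ
    have hA : Aug S X n c := by
      intro σ
      rcases σ.eq_empty_or_nonempty with rfl | hne
      · rw [hc.1]
        exact ⟨Submodule.zero_mem _, IsDeg.zero⟩
      · exact hc.2 σ hne
    obtain ⟨e, he, heD⟩ := acyclic' hm hac l n h₁ _ hA hy'
    have hdeg := (he ∅).2
    rw [show l - (((∅ : Finset I).card : ℤ) - 1) = n by rw [Finset.card_empty]; omega] at hdeg
    have h0 := heD ∅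
    rw [hc.1] at h0
    unfold rawD at h0
    have hcd : cdel e ∅ = 0 := by simp [cdel]
    rw [hcd, LinearMap.comp_zero, zero_add] at h0
    have hxm : (S.G X).P ∘ₗ e ∅ ∈ S.gl X n := by
      refine ⟨S.comp_mem X X X ∅ _ _ (S.P_mem X ∅) (he ∅).1, ?_⟩
      have h1 := (IsDeg.P (X := S.G X)).comp hdeg
      rw [zero_add] at h1
      exact h1
    have hzm : (fun σ => e σ - em (e ∅) σ) ∈ S.Hom X X l := by
      refine ⟨?_, fun σ hσ => ?_⟩
      · change e ∅ - em (e ∅) ∅ = 0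
        rw [em_empty, sub_self]
      · change e σ - em (e ∅) σ ∈ S.H X X σ ∧
          IsDeg (X := S.G X) (Y := S.G X) _ (e σ - em (e ∅) σ)
        rw [em_of_nonempty _ hσ, sub_zero]
        exact he σ
    refine ⟨⟨_, hxm⟩, ⟨_, hzm⟩, Subtype.ext ?_, Subtype.ext (funext fun σ => ?_)⟩
    · change (S.G X).d ∘ₗ ((S.G X).P ∘ₗ e ∅) -
        ((n.negOnePow : ℤˣ) : ℤ) • (((S.G X).P ∘ₗ e ∅) ∘ₗ (S.G X).d) = 0
      have h1 := congrArg (fun f => (S.G X).P ∘ₗ f) h0
      simp only [LinearMap.comp_zero] at h1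
      rw [LinearMap.comp_sub, P_d_comp, LinearMap.comp_smul] at h1
      rw [negOnePow_succ' h₁, LinearMap.comp_assoc, ← neg_eq_zero, ← h1]
      simp only [neg_smul, neg_sub, sub_neg_eq_add]
      abel
    · change c σ = cst ((S.G X).P ∘ₗ e ∅) σ +
        rawD (S.G X) (S.G X) l (fun σ => e σ - em (e ∅) σ) σ
      rw [rawD_sub, heD, rawD_em, h0, em_zero]
      abel

theorem globQ : GlobQ.{u, v} := by
  intro k _ L _ _ I _ _ S X hm hac
  exact DGA.QEquiv.left (gmor hm) (gmor_qiso hm hac) (DGA.QEquiv.refl _)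

end

end Pool.Agent.Helper28.RZ
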