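import Pool.Agent.Helper28.RZ.Strict

/-!
# RZ-E2: the bridge between thick closures of complexes and thick closures in the DG category
-/

set_option autoImplicit false
set_option linter.unusedSimpArgs false
set_option linter.unusedSectionVars false

namespace Pool.Agent.Helper28.RZ

open Pool.Agent.Helper17.RZ Pool.Agent.Helper49.RZ

universe u v

noncomputable section

variable {k : Type u} [Field k] {K : Type u} [Field K] [Algebra k K] {Z : ProjVar k K}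

theorem deg_zero_iff {X Y : Cplx Z} {φ : X.V →ₗ[K] Y.V} :
    IsDeg (X := X.toGrD) (Y := Y.toGrD) 0 φ ↔ ∀ i v, φ (X.pr i v) = Y.pr i (φ v) := by
  rw [isDeg_iff]
  simp only [add_zero]

theorem hS' (hS : HEqSurj.{u, u + 1}) (X Y : Cplx Z) (π : X.V →ₗ[K] Y.V) (h1 : Str X Y 0 π)
    (h2 : ∀ v, π (X.d v) = Y.d (π v))
    (h3 : ∀ σ : Finset Z.I, σ.Nonempty → ∃ (j : Y.V →ₗ[K] X.V) (h : X.V →ₗ[K] X.V),
      (∀ v ∈ Y.lat σ, j v ∈ X.lat σ) ∧ (∀ v ∈ X.lat σ, h v ∈ X.lat σ) ∧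
      (∀ i v, j (Y.pr i v) = X.pr i (j v)) ∧ (∀ i v, h (X.pr i v) = X.pr (i + -1) (h v)) ∧
      (∀ y, π (j y) = y) ∧ (∀ x, x - j (π x) = X.d (h x) + h (X.d x)) ∧ ∀ x, π (h x) = 0) :
    HEquiv Z.perf X Y := by
  refine hS k K Z.I Z.sys X Y π (fun σ hσ => h1.1 σ hσ) h1.2 (LinearMap.ext h2) fun σ hσ => ?_
  obtain ⟨j, h, a1, a2, a3, a4, a5, a6, a7⟩ := h3 σ hσ
  exact ⟨j, a1, h, a2, deg_zero_iff.2 a3, isDeg_iff.2 a4, LinearMap.ext a5, LinearMap.ext a6,
    LinearMap.ext a7⟩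

theorem hI' (hI : HEqInj.{u, u + 1}) (X Y : Cplx Z) (ε : X.V →ₗ[K] Y.V) (h1 : Str X Y 0 ε)
    (h2 : ∀ v, ε (X.d v) = Y.d (ε v))
    (h3 : ∀ σ : Finset Z.I, σ.Nonempty → ∃ (r : Y.V →ₗ[K] X.V) (h : Y.V →ₗ[K] Y.V),
      (∀ v ∈ Y.lat σ, r v ∈ X.lat σ) ∧ (∀ v ∈ Y.lat σ, h v ∈ Y.lat σ) ∧
      (∀ i v, r (Y.pr i v) = X.pr i (r v)) ∧ (∀ i v, h (Y.pr i v) = Y.pr (i + -1) (h v)) ∧
      (∀ x, r (ε x) = x) ∧ (∀ y, y - ε (r y) = Y.d (h y) + h (Y.d y)) ∧ ∀ x, h (ε x) = 0) :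
    HEquiv Z.perf X Y := by
  refine hI k K Z.I Z.sys X Y ε (fun σ hσ => h1.1 σ hσ) h1.2 (LinearMap.ext h2) fun σ hσ => ?_
  obtain ⟨r, h, a1, a2, a3, a4, a5, a6, a7⟩ := h3 σ hσ
  exact ⟨r, a1, h, a2, deg_zero_iff.2 a3, isDeg_iff.2 a4, LinearMap.ext a5, LinearMap.ext a6,
    LinearMap.ext a7⟩

/-- cones are in the thick closure -/
theorem thick_cone {X Y C : Cplx Z} {P : Z.perf.Obj → Prop} {f : X.V →ₗ[K] Y.V}
    {e : C.V ≃ₗ[K] (X.V × Y.V)} (hf : Str X Y 0 f) (hfd : f ∘ₗ X.d = Y.d ∘ₗ f)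
    (hC : CData X Y C f e) (hX : DGThick Z.perf P X) (hY : DGThick Z.perf P Y) :
    DGThick Z.perf P C :=
  DGThick.cone (C := Z.perf) (S := P) X Y C hf.hom hX hY (closed_hom hf hfd) (isCone_of hf hC)

/-- the third term of an exact sequence is homotopy equivalent to the cone -/
theorem ses3 (hL : LiftLem.{u}) (hCE : ConeEx.{u}) (hS : HEqSurj.{u, u + 1}) {X Y W : Cplx Z}
    {P : Z.perf.Obj → Prop} (h : IsSES X Y W) (hX : DGThick Z.perf P X)
    (hY : DGThick Z.perf P Y) : DGThick Z.perf P W := by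
  obtain ⟨f, g, hf, hg, hfd, hgd, hinj, hsurj, hex, hlat⟩ := h
  obtain ⟨C, e, hpr, hd, hl⟩ := hCE k K Z X Y f hf hfd (fun σ hσ x hx => ((hlat σ hσ).1 x).2 hx)
  have hC : CData X Y C f e := ⟨hpr, hd, hl⟩
  have hfs : Str X Y 0 f := ⟨fun σ hσ v hv => ((hlat σ hσ).1 v).2 hv, hf⟩
  have hgv : ∀ x, g (Y.d x) = W.d (g x) := fun x => congrArg (fun f => f x) hgd
  have hgf : ∀ x, g (f x) = 0 := fun x => (hex _).2 ⟨x, rfl⟩
  have hgp := deg_zero_iff.1 hg
  have hCt : DGThick Z.perf P C := thick_cone hfs hfd hC hX hY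
  have hE : HEquiv Z.perf C W := by
    refine hS' hS C W (g ∘ₗ LinearMap.snd K X.V Y.V ∘ₗ e.toLinearMap) ⟨?_, ?_⟩ ?_ ?_
    · intro σ hσ v hv
      exact ((hlat σ hσ).2 _).2 ⟨_, ((hl σ hσ v).1 hv).2, rfl⟩
    · refine deg_zero_iff.2 fun i v => ?_
      change g (e (C.pr i v)).2 = W.pr i (g (e v).2)
      rw [hC.pr, hgp]
    · intro v
      change g (e (C.d v)).2 = W.d (g (e v).2)
      rw [hC.d, map_add, hgf, hgv, zero_add]
    · intro σ hσ
      obtain ⟨s, ρ, ξ, hs, hρ, hξ, hspr, hρpr, hξpr, hgs, hρf, hρs, hfρ, hfξ, hρd⟩ :=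
        local_split hL hf hg hfd hgd hinj hex hσ (hlat σ hσ).1 (hlat σ hσ).2
      refine ⟨e.symm.toLinearMap ∘ₗ LinearMap.prod (-ξ) s,
        e.symm.toLinearMap ∘ₗ LinearMap.inl K X.V Y.V ∘ₗ ρ ∘ₗ LinearMap.snd K X.V Y.V ∘ₗ
          e.toLinearMap, ?_, ?_, ?_, ?_, ?_, ?_, ?_⟩
      · intro v hv
        refine (hl σ hσ _).2 ?_
        change (e (e.symm (-ξ v, s v))).1 ∈ _ ∧ (e (e.symm (-ξ v, s v))).2 ∈ _
        rw [LinearEquiv.apply_symm_apply]
        exact ⟨(X.lat σ).neg_mem (hξ v hv), hs v hv⟩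
      · intro v hv
        refine (hl σ hσ _).2 ?_
        change (e (e.symm (ρ (e v).2, 0))).1 ∈ _ ∧ (e (e.symm (ρ (e v).2, 0))).2 ∈ _
        rw [LinearEquiv.apply_symm_apply]
        exact ⟨hρ _ ((hl σ hσ v).1 hv).2, (Y.lat σ).zero_mem⟩
      · intro i v
        apply e.injective
        change e (e.symm (-ξ (W.pr i v), s (W.pr i v))) = e (C.pr i (e.symm (-ξ v, s v)))
        rw [hC.pr, LinearEquiv.apply_symm_apply, LinearEquiv.apply_symm_apply, hξpr, hspr, map_neg]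
      · intro i v
        apply e.injective
        change e (e.symm (ρ (e (C.pr i v)).2, 0)) = e (C.pr (i + -1) (e.symm (ρ (e v).2, 0)))
        rw [hC.pr, hC.pr, LinearEquiv.apply_symm_apply, LinearEquiv.apply_symm_apply, hρpr,
          map_zero, neg_add_cancel_right]
      · intro w
        change g (e (e.symm (-ξ w, s w))).2 = w
        rw [LinearEquiv.apply_symm_apply]
        exact hgs w
      · intro v
        apply e.injective
        change e (v - e.symm (-ξ (g (e v).2), s (g (e v).2))) =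
          e (C.d (e.symm (ρ (e v).2, 0)) + e.symm (ρ (e (C.d v)).2, 0))
        rw [map_sub, map_add, hC.d, hC.d, LinearEquiv.apply_symm_apply,
          LinearEquiv.apply_symm_apply, LinearEquiv.apply_symm_apply]
        refine Prod.ext ?_ ?_
        · change (e v).1 - -ξ (g (e v).2) = -X.d (ρ (e v).2) + ρ (f (e v).1 + Y.d (e v).2)
          rw [map_add, hρf, ← hρd]
          abel
        · change (e v).2 - s (g (e v).2) = f (ρ (e v).2) + Y.d 0 + 0
          rw [hfρ, map_zero]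
          abel
      · intro v
        change g (e (e.symm (ρ (e v).2, 0))).2 = 0
        rw [LinearEquiv.apply_symm_apply]
        exact map_zero g
  exact DGThick.retract (C := Z.perf) (S := P) C W hCt (retract_of_hEquiv hE)

/-- the shift of the first term is homotopy equivalent to the cone of the second map -/
theorem cone_shift (hL : LiftLem.{u}) (hCE : ConeEx.{u}) (hI : HEqInj.{u, u + 1})
    {X Y W : Cplx Z} (h : IsSES X Y W) : ∃ (C : Cplx Z) (g : Y.V →ₗ[K] W.V)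
      (e : C.V ≃ₗ[K] (Y.V × W.V)), Str Y W 0 g ∧ g ∘ₗ Y.d = W.d ∘ₗ g ∧ CData Y W C g e ∧
        HEquiv Z.perf (X.shift 1) C := by
  obtain ⟨f, g, hf, hg, hfd, hgd, hinj, hsurj, hex, hlat⟩ := h
  have hgs0 : Str Y W 0 g := ⟨fun σ hσ v hv => ((hlat σ hσ).2 _).2 ⟨v, hv, rfl⟩, hg⟩
  obtain ⟨C, e, hpr, hd, hl⟩ := hCE k K Z Y W g hg hgd hgs0.1
  have hC : CData Y W C g e := ⟨hpr, hd, hl⟩
  have hfv : ∀ x, f (X.d x) = Y.d (f x) := fun x => congrArg (fun f => f x) hfd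
  have hgf : ∀ x, g (f x) = 0 := fun x => (hex _).2 ⟨x, rfl⟩
  have hfp := deg_zero_iff.1 hf
  refine ⟨C, g, e, hgs0, hgd, hC, ?_⟩
  refine hI' hI (X.shift 1) C (e.symm.toLinearMap ∘ₗ LinearMap.inl K Y.V W.V ∘ₗ f ∘ₗ
    ofSh X 1) ⟨?_, ?_⟩ ?_ ?_
  · intro σ hσ v hv
    refine (hl σ hσ _).2 ?_
    change (e (e.symm (f (ofSh X 1 v), 0))).1 ∈ _ ∧ (e (e.symm (f (ofSh X 1 v), 0))).2 ∈ _
    rw [LinearEquiv.apply_symm_apply]
    exact ⟨((hlat σ hσ).1 _).2 hv, (W.lat σ).zero_mem⟩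
  · refine deg_zero_iff.2 fun i v => e.injective ?_
    change e (e.symm (f (ofSh X 1 ((X.shift 1).pr i v)), 0)) =
      e (C.pr i (e.symm (f (ofSh X 1 v), 0)))
    rw [hC.pr, LinearEquiv.apply_symm_apply, LinearEquiv.apply_symm_apply, ofSh_pr, hfp, map_zero]
  · intro v
    apply e.injective
    change e (e.symm (f (ofSh X 1 ((X.shift 1).d v)), 0)) =
      e (C.d (e.symm (f (ofSh X 1 v), 0)))
    rw [hC.d, LinearEquiv.apply_symm_apply, LinearEquiv.apply_symm_apply, ofSh_d, map_zero,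
      Int.negOnePow_one, hgf, add_zero]
    refine Prod.ext ?_ rfl
    change f (((-1 : ℤˣ) : ℤ) • X.d (ofSh X 1 v)) = -Y.d (f (ofSh X 1 v))
    rw [Units.val_neg, Units.val_one, neg_one_smul, map_neg, hfv]
  · intro σ hσ
    obtain ⟨s, ρ, ξ, hs, hρ, hξ, hspr, hρpr, hξpr, hgs, hρf, hρs, hfρ, hfξ, hρd⟩ :=
      local_split hL hf hg hfd hgd hinj hex hσ (hlat σ hσ).1 (hlat σ hσ).2
    refine ⟨toSh X 1 ∘ₗ (ρ ∘ₗ LinearMap.fst K Y.V W.V + ξ ∘ₗ LinearMap.snd K Y.V W.V) ∘ₗ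
      e.toLinearMap, e.symm.toLinearMap ∘ₗ LinearMap.inl K Y.V W.V ∘ₗ s ∘ₗ
        LinearMap.snd K Y.V W.V ∘ₗ e.toLinearMap, ?_, ?_, ?_, ?_, ?_, ?_, ?_⟩
    · intro v hv
      change ρ (e v).1 + ξ (e v).2 ∈ X.lat σ
      have := (hl σ hσ v).1 hv
      exact (X.lat σ).add_mem (hρ _ this.1) (hξ _ this.2)
    · intro v hv
      refine (hl σ hσ _).2 ?_
      change (e (e.symm (s (e v).2, 0))).1 ∈ _ ∧ (e (e.symm (s (e v).2, 0))).2 ∈ _
      rw [LinearEquiv.apply_symm_apply]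
      exact ⟨hs _ ((hl σ hσ v).1 hv).2, (W.lat σ).zero_mem⟩
    · intro i v
      change ρ (e (C.pr i v)).1 + ξ (e (C.pr i v)).2 =
        X.pr (i + 1) (ρ (e v).1 + ξ (e v).2)
      rw [hC.pr, map_add, hρpr, hξpr]
    · intro i v
      apply e.injective
      change e (e.symm (s (e (C.pr i v)).2, 0)) = e (C.pr (i + -1) (e.symm (s (e v).2, 0)))
      rw [hC.pr, hC.pr, LinearEquiv.apply_symm_apply, LinearEquiv.apply_symm_apply, hspr,
        neg_add_cancel_right, map_zero]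
    · intro v
      change ρ (e (e.symm (f (ofSh X 1 v), 0))).1 + ξ (e (e.symm (f (ofSh X 1 v), 0))).2 =
        ofSh X 1 v
      rw [LinearEquiv.apply_symm_apply]
      change ρ (f (ofSh X 1 v)) + ξ 0 = _
      rw [hρf, map_zero, add_zero]
    · intro v
      apply e.injective
      change e (v - e.symm (f (ρ (e v).1 + ξ (e v).2), 0)) =
        e (C.d (e.symm (s (e v).2, 0)) + e.symm (s (e (C.d v)).2, 0))
      have e1 : ∀ A B : C.V, e (A + B) = e A + e B := fun A B => map_add e A B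
      rw [map_sub, e1, hC.d, hC.d, LinearEquiv.apply_symm_apply,
        LinearEquiv.apply_symm_apply, LinearEquiv.apply_symm_apply]
      refine Prod.ext ?_ ?_
      · change (e v).1 - f (ρ (e v).1 + ξ (e v).2) =
          -Y.d (s (e v).2) + s (g (e v).1 + W.d (e v).2)
        rw [map_add, hfρ, hfξ, map_add]
        abel
      · change (e v).2 - 0 = g (s (e v).2) + W.d 0 + 0
        rw [hgs, map_zero, sub_zero, add_zero, add_zero]
    · intro v
      apply e.injective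
      change e (e.symm (s (e (e.symm (f (ofSh X 1 v), 0))).2, 0)) = e 0
      have e0 : e (0 : C.V) = 0 := map_zero e
      rw [LinearEquiv.apply_symm_apply, LinearEquiv.apply_symm_apply, e0]
      refine Prod.ext ?_ rfl
      exact map_zero s

theorem ses1 (hL : LiftLem.{u}) (hCE : ConeEx.{u}) (hI : HEqInj.{u, u + 1}) {X Y W : Cplx Z}
    {P : Z.perf.Obj → Prop} (h : IsSES X Y W) (hY : DGThick Z.perf P Y)
    (hW : DGThick Z.perf P W) : DGThick Z.perf P X := by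
  obtain ⟨C, g, e, hg, hgd, hC, hE⟩ := cone_shift hL hCE hI h
  have hCt : DGThick Z.perf P C := thick_cone hg hgd hC hY hW
  have h1 : DGThick Z.perf P (X.shift 1) :=
    DGThick.retract (C := Z.perf) (S := P) C (X.shift 1) hCt (retract_of_hEquiv' hE)
  exact DGThick.shift (C := Z.perf) (S := P) (X.shift 1) X (-1) h1 (isShift_shift' X 1)

theorem ses2 (hL : LiftLem.{u}) (hCE : ConeEx.{u}) (hI : HEqInj.{u, u + 1}) {X Y W : Cplx Z}
    {P : Z.perf.Obj → Prop} (h : IsSES X Y W) (hX : DGThick Z.perf P X)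
    (hW : DGThick Z.perf P W) : DGThick Z.perf P Y := by
  obtain ⟨C, g, e, hg, hgd, hC, hE⟩ := cone_shift hL hCE hI h
  have hgv : ∀ x, g (Y.d x) = W.d (g x) := fun x => congrArg (fun f => f x) hgd
  have hgp := deg_zero_iff.1 hg.2
  have hX1 : DGThick Z.perf P (X.shift 1) :=
    DGThick.shift (C := Z.perf) (S := P) X (X.shift 1) 1 hX (isShift_shift X 1)
  have hCt : DGThick Z.perf P C :=
    DGThick.retract (C := Z.perf) (S := P) (X.shift 1) C hX1 (retract_of_hEquiv hE)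
  have hid : (e.symm.toLinearMap ∘ₗ LinearMap.inr K Y.V W.V) ∘ₗ W.d =
      C.d ∘ₗ (e.symm.toLinearMap ∘ₗ LinearMap.inr K Y.V W.V) := by
    refine LinearMap.ext fun w => e.injective ?_
    change e (e.symm (0, W.d w)) = e (C.d (e.symm (0, w)))
    rw [hC.d, LinearEquiv.apply_symm_apply, LinearEquiv.apply_symm_apply, map_zero, map_zero,
      neg_zero, zero_add]
  obtain ⟨D, e', hpr', hd', hl'⟩ := hCE k K Z W C _ hC.str_i.2 hid hC.str_i.1
  have hD : CData W C D _ e' := ⟨hpr', hd', hl'⟩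
  have hDt : DGThick Z.perf P D := thick_cone hC.str_i hid hD hW hCt
  have hi : Str (Y.shift 1) D 0 (e'.symm.toLinearMap ∘ₗ LinearMap.prod (-g)
      (e.symm.toLinearMap ∘ₗ LinearMap.inl K Y.V W.V) ∘ₗ ofSh Y 1) := by
    refine ⟨fun σ hσ v hv => ?_, isDeg_iff.2 fun i v => e'.injective ?_⟩
    · refine (hl' σ hσ _).2 ?_
      change (e' (e'.symm (-g (ofSh Y 1 v), e.symm (ofSh Y 1 v, 0)))).1 ∈ _ ∧
        (e' (e'.symm (-g (ofSh Y 1 v), e.symm (ofSh Y 1 v, 0)))).2 ∈ _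
      rw [LinearEquiv.apply_symm_apply]
      refine ⟨(W.lat σ).neg_mem (hg.1 σ hσ _ hv), (hC.lat σ hσ _).2 ?_⟩
      rw [LinearEquiv.apply_symm_apply]
      exact ⟨hv, (W.lat σ).zero_mem⟩
    · change e' (e'.symm (-g (Y.pr (i + 1) (ofSh Y 1 v)), e.symm (Y.pr (i + 1) (ofSh Y 1 v), 0))) =
        e' (D.pr (i + 0) (e'.symm (-g (ofSh Y 1 v), e.symm (ofSh Y 1 v, 0))))
      rw [hD.pr, LinearEquiv.apply_symm_apply, LinearEquiv.apply_symm_apply, add_zero, hgp]
      refine Prod.ext ?_ (e.injective ?_)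
      · change -W.pr (i + 1) (g (ofSh Y 1 v)) = W.pr (i + 1) (-g (ofSh Y 1 v))
        rw [map_neg]
      · change e (e.symm _) = e (C.pr i (e.symm _))
        rw [hC.pr, LinearEquiv.apply_symm_apply, LinearEquiv.apply_symm_apply, map_zero]
  have hp : Str D (Y.shift 1) 0 (toSh Y 1 ∘ₗ LinearMap.fst K Y.V W.V ∘ₗ e.toLinearMap ∘ₗ
      LinearMap.snd K W.V C.V ∘ₗ e'.toLinearMap) := by
    refine ⟨fun σ hσ v hv => ?_, isDeg_iff.2 fun i v => ?_⟩
    · change (e (e' v).2).1 ∈ Y.lat σ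
      exact ((hC.lat σ hσ _).1 ((hD.lat σ hσ v).1 hv).2).1
    · change (e (e' (D.pr i v)).2).1 = Y.pr (i + 0 + 1) (e (e' v).2).1
      rw [hD.pr, add_zero]
      change (e (C.pr i (e' v).2)).1 = _
      rw [hC.pr]
  have hret : Z.perf.Retract (Y.shift 1) D := by
    refine retract_of hi hp ?_ ?_ ?_
    · refine LinearMap.ext fun v => e'.injective ?_
      change e' (e'.symm (-g (ofSh Y 1 ((Y.shift 1).d v)), e.symm (ofSh Y 1 ((Y.shift 1).d v), 0)))
        = e' (D.d (e'.symm (-g (ofSh Y 1 v), e.symm (ofSh Y 1 v, 0))))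
      rw [hD.d, LinearEquiv.apply_symm_apply, LinearEquiv.apply_symm_apply, ofSh_d,
        Int.negOnePow_one, Units.val_neg, Units.val_one, neg_one_smul]
      refine Prod.ext ?_ (e.injective ?_)
      · change -g (-Y.d (ofSh Y 1 v)) = -W.d (-g (ofSh Y 1 v))
        rw [map_neg, map_neg, hgv]
      · change e (e.symm (-Y.d (ofSh Y 1 v), 0)) =
          e (e.symm (0, -g (ofSh Y 1 v)) + C.d (e.symm (ofSh Y 1 v, 0)))
        rw [map_add, hC.d, LinearEquiv.apply_symm_apply, LinearEquiv.apply_symm_apply,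
          LinearEquiv.apply_symm_apply, map_zero]
        refine Prod.ext ?_ ?_
        · change -Y.d (ofSh Y 1 v) = 0 + -Y.d (ofSh Y 1 v)
          rw [zero_add]
        · change (0 : W.V) = -g (ofSh Y 1 v) + (g (ofSh Y 1 v) + 0)
          abel
    · refine LinearMap.ext fun v => ?_
      change (e (e' (D.d v)).2).1 = ((Int.negOnePow 1 : ℤˣ) : ℤ) • Y.d (e (e' v).2).1
      rw [hD.d, Int.negOnePow_one, Units.val_neg, Units.val_one, neg_one_smul]
      change (e (e.symm (0, (e' v).1) + C.d (e' v).2)).1 = _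
      rw [map_add, hC.d, LinearEquiv.apply_symm_apply]
      change (0 : Y.V) + -Y.d (e (e' v).2).1 = _
      rw [zero_add]
    · refine LinearMap.ext fun v => ?_
      change (e (e' (e'.symm (-g (ofSh Y 1 v), e.symm (ofSh Y 1 v, 0)))).2).1 = ofSh Y 1 v
      rw [LinearEquiv.apply_symm_apply]
      change (e (e.symm (ofSh Y 1 v, 0))).1 = _
      rw [LinearEquiv.apply_symm_apply]
  have hY1 : DGThick Z.perf P (Y.shift 1) :=
    DGThick.retract (C := Z.perf) (S := P) D (Y.shift 1) hDt hret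
  exact DGThick.shift (C := Z.perf) (S := P) (Y.shift 1) Y (-1) hY1 (isShift_shift' Y 1)

theorem bridge (hL : LiftLem.{u}) (hCE : ConeEx.{u}) (hS : HEqSurj.{u, u + 1})
    (hI : HEqInj.{u, u + 1}) : Bridge.{u} := by
  intro k _ K _ _ Z E X h
  induction h with
  | base => exact DGThick.base (C := Z.perf) (S := fun Y => Y = E) _ rfl
  | shift X n _ ih =>
    exact DGThick.shift (C := Z.perf) (S := fun Y => Y = E) X (X.shift n) n ih
      (isShift_shift X n)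
  | retract X Y _ hr ih =>
    exact DGThick.retract (C := Z.perf) (S := fun Y => Y = E) X Y ih hr
  | ses₁ X Y W hs _ _ ih1 ih2 => exact ses1 hL hCE hI hs ih1 ih2
  | ses₂ X Y W hs _ _ ih1 ih2 => exact ses2 hL hCE hI hs ih1 ih2
  | ses₃ X Y W hs _ _ ih1 ih2 => exact ses3 hL hCE hS hs ih1 ih2

end

end Pool.Agent.Helper28.RZ
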