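import Pool.Agent.Helper17.RZ.St3
import Pool.Agent.Helper28.RZ.GlobQ

/-!
# RZ-C8: a bundle is a homotopy retract of a long resolution
-/

set_option autoImplicit false
set_option linter.unusedSimpArgs false
set_option linter.unusedSectionVars false

namespace Pool.Agent.Helper28.RZ

open Pool.Agent.Helper17.RZ

universe u v

noncomputable section

variable {k : Type u} [Field k] {K : Type u} [Field K] [Algebra k K] {Z : ProjVar k K}

/-- two linear maps which agree on a lattice are equal -/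
theorem ext_lat (V : Cplx Z) {σ : Finset Z.I} (hσ : σ.Nonempty) {U : Type u} [AddCommGroup U]
    [Module K U] {f g : V.V →ₗ[K] U} (h : ∀ v ∈ V.lat σ, f v = g v) : f = g := by
  ext v
  obtain ⟨c, hc, hcv⟩ := V.lat_gen σ hσ v
  have h1 := h _ hcv
  have e1 : f (c • v) = (c : K) • f v := f.map_smul (c : K) v
  have e2 : g (c • v) = (c : K) • g v := g.map_smul (c : K) v
  rw [e1, e2] at h1
  have hc0 : (c : K) ≠ 0 := fun h => hc (Subtype.ext h)
  exact smul_right_injective U hc0 h1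

theorem conc0_pr (V : Cplx Z) (hV : V.Conc0) {i : ℤ} (hi : i ≠ 0) : V.pr i = 0 := by
  have h1 := V.pr_pr i 0
  rw [if_neg hi, show V.pr 0 = LinearMap.id from hV, LinearMap.comp_id] at h1
  exact h1

theorem conc0_d (V : Cplx Z) (hV : V.Conc0) : V.d = 0 := by
  have h1 := V.d_pr 0
  rw [show V.pr 0 = LinearMap.id from hV, LinearMap.comp_id, conc0_pr V hV (by norm_num),
    LinearMap.zero_comp] at h1
  exact h1

theorem isDeg_of (V X : Cplx Z) (hV : V.Conc0) {m : ℤ} {φ : V.V →ₗ[K] X.V}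
    (h : X.pr m ∘ₗ φ = φ) : IsDeg (X := V.toGrD) (Y := X.toGrD) m φ := by
  intro i
  by_cases hi : i = 0
  · subst hi
    rw [show V.pr 0 = LinearMap.id from hV, LinearMap.comp_id, zero_add, h]
  · rw [conc0_pr V hV hi, LinearMap.comp_zero, ← h, ← LinearMap.comp_assoc, X.pr_pr,
      if_neg (by omega), LinearMap.zero_comp]

theorem of_isDeg (V X : Cplx Z) (hV : V.Conc0) {m : ℤ} {φ : V.V →ₗ[K] X.V}
    (h : IsDeg (X := V.toGrD) (Y := X.toGrD) m φ) : X.pr m ∘ₗ φ = φ := by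
  have h1 := h 0
  rw [show V.pr 0 = LinearMap.id from hV, LinearMap.comp_id, zero_add] at h1
  exact h1.symm

/-- sections of degree `j` -/
def degLat (X : Cplx Z) (σ : Finset Z.I) (j : ℤ) : Submodule (Z.A σ) X.V where
  carrier := {x | x ∈ X.lat σ ∧ X.pr j x = x}
  add_mem' := fun ha hb => ⟨(X.lat σ).add_mem ha.1 hb.1, by rw [map_add, ha.2, hb.2]⟩
  zero_mem' := ⟨(X.lat σ).zero_mem, map_zero _⟩
  smul_mem' := fun c x hx => ⟨(X.lat σ).smul_mem c hx.1, by
    have h1 : X.pr j (c • x) = (c : K) • X.pr j x := (X.pr j).map_smul (c : K) x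
    rw [h1, hx.2]
    rfl⟩

/-- closed sections of degree `j` in the kernel of `π` -/
def cycLat (X V : Cplx Z) (π : X.V →ₗ[K] V.V) (σ : Finset Z.I) (j : ℤ) :
    Submodule (Z.A σ) X.V where
  carrier := {x | x ∈ X.lat σ ∧ X.pr j x = x ∧ X.d x = 0 ∧ π x = 0}
  add_mem' := fun ha hb => ⟨(X.lat σ).add_mem ha.1 hb.1, by rw [map_add, ha.2.1, hb.2.1],
    by rw [map_add, ha.2.2.1, hb.2.2.1, add_zero], by rw [map_add, ha.2.2.2, hb.2.2.2, add_zero]⟩
  zero_mem' := ⟨(X.lat σ).zero_mem, map_zero _, map_zero _, map_zero _⟩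
  smul_mem' := fun c x hx => ⟨(X.lat σ).smul_mem c hx.1, by
    have h1 : X.pr j (c • x) = (c : K) • X.pr j x := (X.pr j).map_smul (c : K) x
    rw [h1, hx.2.1]
    rfl, by
    have h1 : X.d (c • x) = (c : K) • X.d x := X.d.map_smul (c : K) x
    rw [h1, hx.2.2.1, smul_zero], by
    have h1 : π (c • x) = (c : K) • π x := π.map_smul (c : K) x
    rw [h1, hx.2.2.2, smul_zero]⟩

theorem res_pr0 {X V : Cplx Z} {π : X.V →ₗ[K] V.V} {n : ℕ} (h : IsRes X V π n) :
    π ∘ₗ X.pr 0 = π := by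
  apply X.toGrD.ext_pr
  intro i
  rw [LinearMap.comp_assoc, X.pr_pr]
  by_cases hi : (0 : ℤ) = i
  · rw [if_pos hi, hi]
  · rw [if_neg hi, LinearMap.comp_zero, h.2.1 i (Ne.symm hi)]

theorem res_deg {X V : Cplx Z} {π : X.V →ₗ[K] V.V} {n : ℕ} (hV : V.Conc0)
    (h : IsRes X V π n) : IsDeg (X := X.toGrD) (Y := V.toGrD) 0 π := by
  intro i
  rw [add_zero]
  by_cases hi : i = 0
  · subst hi
    rw [res_pr0 h, show V.pr 0 = LinearMap.id from hV, LinearMap.id_comp]
  · rw [h.2.1 i hi, conc0_pr V hV hi, LinearMap.zero_comp]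

/-- `π` after the differential of a cochain -/
theorem comp_rawD {X V : Cplx Z} {π : X.V →ₗ[K] V.V} {n : ℕ} (hV : V.Conc0)
    (h : IsRes X V π n) (m : ℤ) (b : Finset Z.I → (V.V →ₗ[K] X.V)) (σ : Finset Z.I) :
    π ∘ₗ rawD V.toGrD X.toGrD m b σ = V.toGrD.P ∘ₗ cdel (fun τ => π ∘ₗ b τ) σ := by
  unfold rawD
  rw [conc0_d V hV, LinearMap.comp_zero, smul_zero, sub_zero, LinearMap.comp_add,
    ← LinearMap.comp_assoc, ← LinearMap.comp_assoc, h.2.2.1, LinearMap.zero_comp, add_zero,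
    cdel_comp_left]
  have h1 := GrD.P_comp (res_deg hV h)
  rw [Int.negOnePow_zero, Units.val_one, one_smul] at h1
  rw [← h1, LinearMap.comp_assoc]

/-- closed cochains of degree 1 over `0` are coboundaries -/
theorem claim (hL : LiftLem.{u}) {X V : Cplx Z} {π : X.V →ₗ[K] V.V} {n : ℕ} (hV : V.Conc0)
    (h : IsRes X V π n) (hn : Fintype.card Z.I ≤ n) (r : ℕ) : ∀ q : ℕ, 1 ≤ q →
    Fintype.card Z.I + 1 ≤ q + r → ∀ c : Finset Z.I → (V.V →ₗ[K] X.V), c ∈ Z.sys.Hom V X 1 →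
      (∀ σ, rawD V.toGrD X.toGrD 1 c σ = 0) → (∀ σ, π ∘ₗ c σ = 0) →
      (∀ σ : Finset Z.I, σ.card < q → c σ = 0) →
      ∃ b : Finset Z.I → (V.V →ₗ[K] X.V), b ∈ Z.sys.Hom V X 0 ∧ (∀ σ, π ∘ₗ b σ = 0) ∧
        ∀ σ, rawD V.toGrD X.toGrD 0 b σ = c σ := by
  induction r with
  | zero =>
    intro q _ hq c _ _ _ hz
    refine ⟨0, Submodule.zero_mem _, fun σ => LinearMap.comp_zero _, fun σ => ?_⟩
    have := Finset.card_le_univ σ
    rw [hz σ (by omega)]
    simp [rawD, cdel]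
  | succ r ih =>
    intro q hq1 hq c hc hD hπ hz
    -- vanishing for `q = 1`
    by_cases hq2 : q = 1
    · subst hq2
      refine ih 2 (by norm_num) (by omega) c hc hD hπ fun σ hσ => ?_
      by_cases h1 : σ.card < 1
      · exact hz σ h1
      · have h2 : σ.card = 1 := by omega
        have h3 := (hc.2 σ (Finset.card_pos.1 (by omega))).2
        rw [h2] at h3
        have h4 := of_isDeg V X hV h3
        rw [h.1 _ (by norm_num), LinearMap.zero_comp] at h4
        exact h4.symm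
    -- lifts
    have hlift : ∀ σ : Finset Z.I, ∃ ψ : V.V →ₗ[K] X.V, σ.card = q →
        (∀ v ∈ V.lat σ, ψ v ∈ X.lat σ) ∧ X.pr (1 - q) ∘ₗ ψ = ψ ∧ X.d ∘ₗ ψ = c σ := by
      intro σ
      by_cases hσ : σ.card = q
      · have hne : σ.Nonempty := Finset.card_pos.1 (by omega)
        have hle := Finset.card_le_univ σ
        have hdeg := (hc.2 σ hne).2
        rw [show (1 : ℤ) - ((σ.card : ℤ) - 1) = 2 - q by rw [hσ]; ring] at hdeg
        have hpr := of_isDeg V X hV hdeg
        have hdc : X.d ∘ₗ c σ = 0 := by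
          have h1 := hD σ
          unfold rawD at h1
          have h2 : cdel c σ = 0 := by
            unfold cdel
            apply Finset.sum_eq_zero
            intro i hi'
            have h2 := Finset.card_erase_add_one hi'
            rw [hz _ (by omega), smul_zero]
          rw [h2, conc0_d V hV, LinearMap.comp_zero, LinearMap.comp_zero, smul_zero, zero_add,
            sub_zero] at h1
          exact h1
        obtain ⟨ψ, hψ1, hψ2⟩ := hL k K Z V σ hne X.V X.V (degLat X σ (1 - q))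
          (cycLat X V π σ (2 - q)) X.d (c σ) (by
            intro v hv
            refine ⟨(hc.2 σ hne).1 v hv, ?_, ?_, ?_⟩
            · exact congrArg (fun f => f v) hpr
            · exact congrArg (fun f => f v) hdc
            · exact congrArg (fun f => f v) (hπ σ)) (by
            rintro w ⟨hw1, hw2, hw3, hw4⟩
            obtain ⟨y, hy1, hy2, hy3⟩ := ((h.2.2.2 σ hne).2.2) (2 - q) (by omega) w hw1 hw2 hw3
              (fun _ => hw4)
            refine ⟨y, ⟨hy1, ?_⟩, hy3⟩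
            rw [show (1 : ℤ) - q = 2 - q - 1 by ring]
            exact hy2)
        refine ⟨ψ, fun _ => ⟨fun v hv => (hψ1 v hv).1, ?_, hψ2⟩⟩
        exact ext_lat V hne fun v hv => (hψ1 v hv).2
      · exact ⟨0, fun h => absurd h hσ⟩
    choose ψ hψ using hlift
    set b1 : Finset Z.I → (V.V →ₗ[K] X.V) := fun σ => if σ.card = q then ψ σ else 0 with hb1
    have hb1m : b1 ∈ Z.sys.Hom V X 0 := by
      refine ⟨?_, fun σ hσ => ?_⟩
      · exact if_neg (by rw [Finset.card_empty]; omega)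
      · by_cases h1 : σ.card = q
        · have h0 : b1 σ = ψ σ := by rw [hb1]; simp only [if_pos h1]
          rw [h0]
          refine ⟨(hψ σ h1).1, ?_⟩
          have h2 := isDeg_of V X hV (hψ σ h1).2.1
          rw [show (0 : ℤ) - ((σ.card : ℤ) - 1) = 1 - q by rw [h1]; ring]
          exact h2
        · have h0 : b1 σ = 0 := by rw [hb1]; simp only [if_neg h1]
          rw [h0]
          exact ⟨Submodule.zero_mem _, IsDeg.zero⟩
    have hb1π : ∀ σ, π ∘ₗ b1 σ = 0 := by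
      intro σ
      by_cases h1 : σ.card = q
      · have h0 : b1 σ = ψ σ := by rw [hb1]; simp only [if_pos h1]
        rw [h0, ← (hψ σ h1).2.1, ← LinearMap.comp_assoc, h.2.1 _ (by omega),
          LinearMap.zero_comp]
      · have h0 : b1 σ = 0 := by rw [hb1]; simp only [if_neg h1]
        rw [h0, LinearMap.comp_zero]
    have hb1D : ∀ σ : Finset Z.I, σ.card < q + 1 → rawD V.toGrD X.toGrD 0 b1 σ = c σ := by
      intro σ hσ
      have h1 : cdel b1 σ = 0 := by
        unfold cdel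
        apply Finset.sum_eq_zero
        intro i hi'
        have h2 := Finset.card_erase_add_one hi'
        rw [hb1]
        dsimp only
        rw [if_neg (by omega), smul_zero]
      unfold rawD
      rw [h1, conc0_d V hV, LinearMap.comp_zero, LinearMap.comp_zero, smul_zero, zero_add,
        sub_zero]
      by_cases h2 : σ.card = q
      · have h0 : b1 σ = ψ σ := by rw [hb1]; simp only [if_pos h2]
        rw [h0, (hψ σ h2).2.2]
      · have h0 : b1 σ = 0 := by rw [hb1]; simp only [if_neg h2]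
        rw [h0, LinearMap.comp_zero, hz σ (by omega)]
    obtain ⟨b2, hb2m, hb2π, hb2D⟩ := ih (q + 1) (by omega) (by omega)
      (c - rawD V.toGrD X.toGrD 0 b1)
      (Submodule.sub_mem _ hc (Z.sys.rawD_mem (zero_add 1) hb1m)) (fun σ => by
        have h1 : rawD V.toGrD X.toGrD 1 (c - rawD V.toGrD X.toGrD 0 b1) σ =
            rawD V.toGrD X.toGrD 1 c σ - rawD V.toGrD X.toGrD 1 (rawD V.toGrD X.toGrD 0 b1) σ :=
          rawD_sub V.toGrD X.toGrD 1 c (rawD V.toGrD X.toGrD 0 b1) σ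
        rw [h1, hD, zero_sub, neg_eq_zero]
        exact rawD_rawD V.toGrD X.toGrD 0 b1 σ) (fun σ => by
        rw [Pi.sub_apply, LinearMap.comp_sub, hπ, comp_rawD hV h]
        have h1 : (fun τ => π ∘ₗ b1 τ) = fun _ => 0 := funext hb1π
        rw [h1]
        simp [cdel]) (fun σ hσ => by
        rw [Pi.sub_apply, hb1D σ hσ, sub_self])
    refine ⟨b1 + b2, Submodule.add_mem _ hb1m hb2m, fun σ => ?_, fun σ => ?_⟩
    · rw [Pi.add_apply, LinearMap.comp_add, hb1π, hb2π, add_zero]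
    · have h1 : rawD V.toGrD X.toGrD 0 (b1 + b2) σ =
          rawD V.toGrD X.toGrD 0 b1 σ + rawD V.toGrD X.toGrD 0 b2 σ :=
        rawD_add V.toGrD X.toGrD 0 b1 b2 σ
      rw [h1, hb2D, Pi.sub_apply]
      abel

theorem cst_eq_comp' {U W : Type u} [AddCommGroup U] [AddCommGroup W] [Module K U] [Module K W]
    {I : Type} [LinearOrder I] (φ : U →ₗ[K] W) (σ : Finset I) :
    cst φ σ = φ ∘ₗ cone1 U σ := by
  unfold cst cone1
  split_ifs
  · rw [LinearMap.comp_id]
  · rw [LinearMap.comp_zero]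

theorem retrEx (hL : LiftLem.{u}) : RetrEx.{u} := by
  intro k _ K _ _ Z X V π n hV h hn
  -- local sections
  have hloc : ∀ σ : Finset Z.I, ∃ ψ : V.V →ₗ[K] X.V, σ.Nonempty →
      (∀ v ∈ V.lat σ, ψ v ∈ X.lat σ) ∧ X.pr 0 ∘ₗ ψ = ψ ∧ π ∘ₗ ψ = LinearMap.id := by
    intro σ
    by_cases hσ : σ.Nonempty
    · obtain ⟨ψ, hψ1, hψ2⟩ := hL k K Z V σ hσ X.V V.V (degLat X σ 0) (V.lat σ) π LinearMap.id
        (fun v hv => hv) (by
          intro w hw
          obtain ⟨x, hx1, hx2, hx3⟩ := (h.2.2.2 σ hσ).2.1 w hw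
          exact ⟨x, ⟨hx1, hx2⟩, hx3⟩)
      refine ⟨ψ, fun _ => ⟨fun v hv => (hψ1 v hv).1, ?_, hψ2⟩⟩
      exact ext_lat V hσ fun v hv => (hψ1 v hv).2
    · exact ⟨0, fun h => absurd h hσ⟩
  choose ψ hψ using hloc
  set s0 : Finset Z.I → (V.V →ₗ[K] X.V) := fun σ => if σ.card = 1 then ψ σ else 0 with hs0
  have hs0m : s0 ∈ Z.sys.Hom V X 0 := by
    refine ⟨if_neg (by rw [Finset.card_empty]; omega), fun σ hσ => ?_⟩
    by_cases h1 : σ.card = 1
    · have h0 : s0 σ = ψ σ := by rw [hs0]; simp only [if_pos h1]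
      rw [h0, h1, show (0 : ℤ) - (((1 : ℕ) : ℤ) - 1) = 0 by norm_num]
      exact ⟨(hψ σ hσ).1, isDeg_of V X hV (hψ σ hσ).2.1⟩
    · have h0 : s0 σ = 0 := by rw [hs0]; simp only [if_neg h1]
      rw [h0]
      exact ⟨Submodule.zero_mem _, IsDeg.zero⟩
  have hs0π : ∀ σ, π ∘ₗ s0 σ = cst LinearMap.id σ := by
    intro σ
    by_cases h1 : σ.card = 1
    · have h0 : s0 σ = ψ σ := by rw [hs0]; simp only [if_pos h1]
      rw [h0, (hψ σ (Finset.card_pos.1 (by omega))).2.2]
      unfold cst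
      rw [if_pos h1]
    · have h0 : s0 σ = 0 := by rw [hs0]; simp only [if_neg h1]
      rw [h0, LinearMap.comp_zero]
      unfold cst
      rw [if_neg h1]
  obtain ⟨b, hbm, hbπ, hbD⟩ := claim hL hV h hn (Fintype.card Z.I) 1 le_rfl (by omega)
    (rawD V.toGrD X.toGrD 0 s0) (Z.sys.rawD_mem (zero_add 1) hs0m)
    (fun σ => rawD_rawD V.toGrD X.toGrD 0 s0 σ) (fun σ => by
      rw [comp_rawD hV h]
      have h1 : (fun τ => π ∘ₗ s0 τ) = cst LinearMap.id := funext hs0π
      rw [h1, cdel_cst, LinearMap.comp_zero]) (fun σ hσ => by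
      have h1 : σ = ∅ := Finset.card_eq_zero.1 (by omega)
      rw [h1]
      exact (Z.sys.rawD_mem (zero_add 1) hs0m).1)
  have hsm : s0 - b ∈ Z.sys.Hom V X 0 := Submodule.sub_mem _ hs0m hbm
  have hpm : (cst π : Finset Z.I → _) ∈ Z.sys.Hom X V 0 := by
    refine ⟨if_neg (by rw [Finset.card_empty]; omega), fun σ hσ => ?_⟩
    unfold cst
    split_ifs with h1
    · rw [h1, show (0 : ℤ) - (((1 : ℕ) : ℤ) - 1) = 0 by norm_num]
      exact ⟨(h.2.2.2 σ hσ).1, res_deg hV h⟩
    · exact ⟨Submodule.zero_mem _, IsDeg.zero⟩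
  refine ⟨⟨_, hsm⟩, ⟨_, hpm⟩, (⟨0, Submodule.zero_mem _⟩ : Z.sys.Hom V V (-1)),
    Subtype.ext (funext fun σ => ?_), Subtype.ext (funext fun σ => ?_),
    Subtype.ext (funext fun σ => ?_)⟩
  · change rawD V.toGrD X.toGrD 0 (s0 - b) σ = 0
    have h1 : rawD V.toGrD X.toGrD 0 (s0 - b) σ =
        rawD V.toGrD X.toGrD 0 s0 σ - rawD V.toGrD X.toGrD 0 b σ :=
      rawD_sub V.toGrD X.toGrD 0 s0 b σ
    rw [h1, hbD, sub_self]
  · change rawD X.toGrD V.toGrD 0 (cst π) σ = 0
    unfold rawD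
    rw [cdel_cst, conc0_d V hV, LinearMap.comp_zero, LinearMap.zero_comp, add_zero, zero_sub,
      neg_eq_zero]
    unfold cst
    split_ifs
    · rw [h.2.2.1, smul_zero]
    · rw [LinearMap.zero_comp, smul_zero]
  · change ccup (cst π) (s0 - b) σ = cone1 V.V σ + rawD V.toGrD V.toGrD (-1) 0 σ
    have h0 : rawD V.toGrD V.toGrD (-1) 0 σ = 0 := by simp [rawD, cdel]
    rw [h0, add_zero]
    have h1 : ccup (cst π) (s0 - b) σ = π ∘ₗ ccup (cone1 X.V) (s0 - b) σ := by
      unfold ccup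
      rw [lcomp_sum]
      apply Finset.sum_congr rfl
      intro i _
      rw [cst_eq_comp', LinearMap.comp_assoc]
    rw [h1, cone_ccup _ hsm.1, Pi.sub_apply, LinearMap.comp_sub, hbπ, sub_zero, hs0π]
    rfl

end

end Pool.Agent.Helper28.RZ
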