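import Pool.Agent.Helper17.RZ.St1

/-!
# RZ-A4: normal form of a diagonal ternary form over the rational function field
-/

set_option autoImplicit false

open Polynomial
open Pool.Agent.Helper17.RZ

namespace Pool.Agent.Helper28.RZ

universe u

variable {F : Type u} [Field F]

/-- the polynomials `A, B, C` are, up to a common factor and squares, `a, b, c` -/
def Good (a b c : RatFunc F) (A B C : F[X]) : Prop :=
  A ≠ 0 ∧ B ≠ 0 ∧ C ≠ 0 ∧ ∃ m s₁ s₂ s₃ : RatFunc F, m ≠ 0 ∧ s₁ ≠ 0 ∧ s₂ ≠ 0 ∧ s₃ ≠ 0 ∧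
    pr A = m * a * s₁ ^ 2 ∧ pr B = m * b * s₂ ^ 2 ∧ pr C = m * c * s₃ ^ 2

theorem Good.rot {a b c : RatFunc F} {A B C : F[X]} (h : Good a b c A B C) : Good b c a B C A := by
  obtain ⟨hA, hB, hC, m, s₁, s₂, s₃, hm, h1, h2, h3, e1, e2, e3⟩ := h
  exact ⟨hB, hC, hA, m, s₂, s₃, s₁, hm, h2, h3, h1, e2, e3, e1⟩

theorem pr_ne {P : F[X]} (hP : P ≠ 0) : pr P ≠ 0 := RatFunc.algebraMap_ne_zero hP

theorem Good.div_sq {a b c : RatFunc F} {p A B C : F[X]} (h : Good a b c (p * p * A) B C) :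
    Good a b c A B C := by
  obtain ⟨hA, hB, hC, m, s₁, s₂, s₃, hm, h1, h2, h3, e1, e2, e3⟩ := h
  have hp : p ≠ 0 := fun h => hA (by simp [h])
  have hA' : A ≠ 0 := fun h => hA (by simp [h])
  have hpp := pr_ne hp
  refine ⟨hA', hB, hC, m, s₁ / pr p, s₂, s₃, hm, div_ne_zero h1 hpp, h2, h3, ?_, e2, e3⟩
  have e : pr (p * p * A) = pr p * pr p * pr A := by simp [pr]
  rw [e] at e1
  field_simp
  linear_combination e1

theorem Good.div_common {a b c : RatFunc F} {p A B C : F[X]} (h : Good a b c (p * A) (p * B) C) :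
    Good a b c A B (p * C) := by
  obtain ⟨hA, hB, hC, m, s₁, s₂, s₃, hm, h1, h2, h3, e1, e2, e3⟩ := h
  have hp : p ≠ 0 := fun h => hA (by simp [h])
  have hA' : A ≠ 0 := fun h => hA (by simp [h])
  have hB' : B ≠ 0 := fun h => hB (by simp [h])
  have hpp := pr_ne hp
  refine ⟨hA', hB', mul_ne_zero hp hC, m * pr p, s₁ / pr p, s₂ / pr p, s₃, mul_ne_zero hm hpp,
    div_ne_zero h1 hpp, div_ne_zero h2 hpp, h3, ?_, ?_, ?_⟩
  · have e : pr (p * A) = pr p * pr A := by simp [pr]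
    rw [e] at e1
    field_simp
    linear_combination e1
  · have e : pr (p * B) = pr p * pr B := by simp [pr]
    rw [e] at e2
    field_simp
    linear_combination e2
  · have e : pr (p * C) = pr p * pr C := by simp [pr]
    rw [e, e3]
    ring

/-- minimality of the total degree -/
def Mn (a b c : RatFunc F) (A B C : F[X]) : Prop :=
  Good a b c A B C ∧ ∀ A' B' C' : F[X], Good a b c A' B' C' →
    A.natDegree + B.natDegree + C.natDegree ≤ A'.natDegree + B'.natDegree + C'.natDegree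

theorem Mn.rot {a b c : RatFunc F} {A B C : F[X]} (h : Mn a b c A B C) : Mn b c a B C A := by
  refine ⟨h.1.rot, fun A' B' C' h' => ?_⟩
  have := h.2 C' A' B' h'.rot.rot
  omega

theorem Mn.squarefree {a b c : RatFunc F} {A B C : F[X]} (h : Mn a b c A B C) : Squarefree A := by
  intro x hx
  obtain ⟨A', rfl⟩ := hx
  have hA := h.1.1
  have hx0 : x ≠ 0 := fun h => hA (by simp [h])
  have hA' : A' ≠ 0 := fun h => hA (by simp [h])
  have h1 := h.2 A' B C h.1.div_sq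
  rw [natDegree_mul (mul_ne_zero hx0 hx0) hA', natDegree_mul hx0 hx0] at h1
  have h2 : x.natDegree = 0 := by omega
  rw [natDegree_eq_zero] at h2
  obtain ⟨r, rfl⟩ := h2
  exact isUnit_C.2 (IsUnit.mk0 r (fun h => hx0 (by simp [h])))

theorem Mn.coprime {a b c : RatFunc F} {A B C : F[X]} (h : Mn a b c A B C) : IsCoprime A B := by
  refine isCoprime_of_irreducible_dvd (fun h' => h.1.1 h'.1) fun z hz hA hB => ?_
  obtain ⟨A', rfl⟩ := hA
  obtain ⟨B', rfl⟩ := hB
  have hz0 := hz.ne_zero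
  have hA' : A' ≠ 0 := fun h' => h.1.1 (by simp [h'])
  have hB' : B' ≠ 0 := fun h' => h.1.2.1 (by simp [h'])
  have h1 := h.2 A' B' (z * C) h.1.div_common
  rw [natDegree_mul hz0 hA', natDegree_mul hz0 hB', natDegree_mul hz0 h.1.2.2.1] at h1
  have h2 := hz.natDegree_pos
  omega

theorem exists_good (a b c : RatFunc F) (ha : a ≠ 0) (hb : b ≠ 0) (hc : c ≠ 0) :
    ∃ A B C : F[X], Good a b c A B C := by
  have key : ∀ x : RatFunc F, x ≠ 0 → ∃ (A : F[X]) (s : RatFunc F), A ≠ 0 ∧ s ≠ 0 ∧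
      pr A = 1 * x * s ^ 2 := by
    intro x hx
    have hd : x.denom ≠ 0 := RatFunc.denom_ne_zero x
    have hn : x.num ≠ 0 := RatFunc.num_ne_zero hx
    refine ⟨x.num * x.denom, pr x.denom, mul_ne_zero hn hd, pr_ne hd, ?_⟩
    have e : pr x.num / pr x.denom = x := RatFunc.num_div_denom x
    have hd' := pr_ne hd
    have e' : pr (x.num * x.denom) = pr x.num * pr x.denom := by simp [pr]
    rw [div_eq_iff hd'] at e
    rw [e', e]
    ring
  obtain ⟨A, s₁, hA, h1, e1⟩ := key a ha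
  obtain ⟨B, s₂, hB, h2, e2⟩ := key b hb
  obtain ⟨C, s₃, hC, h3, e3⟩ := key c hc
  exact ⟨A, B, C, hA, hB, hC, 1, s₁, s₂, s₃, one_ne_zero, h1, h2, h3, e1, e2, e3⟩

theorem exists_mn (a b c : RatFunc F) (ha : a ≠ 0) (hb : b ≠ 0) (hc : c ≠ 0) :
    ∃ A B C : F[X], Mn a b c A B C := by
  classical
  have hex : ∃ n : ℕ, ∃ A B C : F[X], Good a b c A B C ∧
      A.natDegree + B.natDegree + C.natDegree = n := by
    obtain ⟨A, B, C, h⟩ := exists_good a b c ha hb hc
    exact ⟨_, A, B, C, h, rfl⟩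
  obtain ⟨A, B, C, h, hn⟩ := Nat.find_spec hex
  refine ⟨A, B, C, h, fun A' B' C' h' => ?_⟩
  rw [hn]
  exact Nat.find_min' hex ⟨A', B', C', h', rfl⟩

theorem normForm : NormForm.{u} := by
  intro F _ a b c ha hb hc
  obtain ⟨A, B, C, h⟩ := exists_mn a b c ha hb hc
  obtain ⟨hA, hB, hC, m, s₁, s₂, s₃, hm, h1, h2, h3, e1, e2, e3⟩ := h.1
  exact ⟨A, B, C, m, s₁, s₂, s₃, hA, hB, hC, hm, h1, h2, h3, h.squarefree, h.rot.squarefree,
    h.rot.rot.squarefree, h.coprime, h.rot.rot.coprime.symm, h.rot.coprime, e1, e2, e3⟩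

end Pool.Agent.Helper28.RZ
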