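import Pool.Agent.Helper17.RZ.St5
import Pool.Agent.Helper28.RZ.RetrEx

/-!
# RZ-E2, part 1: constant cochains, cones and shifts, local splittings
-/

set_option autoImplicit false
set_option linter.unusedSimpArgs false
set_option linter.unusedSectionVars false

namespace Pool.Agent.Helper28.RZ

open Pool.Agent.Helper17.RZ Pool.Agent.Helper49.RZ

universe u v

noncomputable section

variable {k : Type u} [Field k] {K : Type u} [Field K] [Algebra k K] {Z : ProjVar k K}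

theorem isDeg_iff {X Y : GrD k K} {n : ℤ} {φ : X.V →ₗ[K] Y.V} :
    IsDeg (X := X) (Y := Y) n φ ↔ ∀ i v, φ (X.pr i v) = Y.pr (i + n) (φ v) := by
  constructor
  · intro h i v
    exact congrArg (fun f => f v) (h i)
  · intro h i
    ext v
    exact h i v

/-- strict morphisms of degree `n` -/
def Str (X Y : Cplx Z) (n : ℤ) (φ : X.V →ₗ[K] Y.V) : Prop :=
  (∀ σ : Finset Z.I, σ.Nonempty → ∀ v ∈ X.lat σ, φ v ∈ Y.lat σ) ∧
    IsDeg (X := X.toGrD) (Y := Y.toGrD) n φ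

theorem Str.mem {X Y : Cplx Z} {n : ℤ} {φ : X.V →ₗ[K] Y.V} (h : Str X Y n φ) :
    (cst φ : Finset Z.I → _) ∈ Z.sys.Hom X Y n := by
  refine ⟨if_neg (by rw [Finset.card_empty]; omega), fun σ hσ => ?_⟩
  unfold cst
  split_ifs with h1
  · rw [h1, show n - (((1 : ℕ) : ℤ) - 1) = n by norm_num]
    exact ⟨h.1 σ hσ, h.2⟩
  · exact ⟨Submodule.zero_mem _, IsDeg.zero⟩

/-- the constant cochain of a strict morphism -/
def Str.hom {X Y : Cplx Z} {n : ℤ} {φ : X.V →ₗ[K] Y.V} (h : Str X Y n φ) : Z.perf.Hom X Y n :=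
  (⟨cst φ, h.mem⟩ : Z.sys.Hom X Y n)

theorem rawD_cst {I : Type} [LinearOrder I] (X Y : GrD k K) (n : ℤ) (φ : X.V →ₗ[K] Y.V)
    (σ : Finset I) : rawD X Y n (cst φ) σ =
      cst (Y.d ∘ₗ φ - ((n.negOnePow : ℤˣ) : ℤ) • (φ ∘ₗ X.d)) σ := by
  unfold rawD
  rw [cdel_cst, LinearMap.comp_zero, zero_add]
  unfold cst
  split_ifs
  · rfl
  · simp

theorem ccup_cst {I : Type} [LinearOrder I] {U V W : Type u} [AddCommGroup U] [AddCommGroup V]
    [AddCommGroup W] [Module K U] [Module K V] [Module K W] (φ : V →ₗ[K] W) (ψ : U →ₗ[K] V)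
    (σ : Finset I) : ccup (cst φ) (cst ψ) σ = cst (φ ∘ₗ ψ) σ := by
  have h1 : ccup (cst φ) (cst ψ) σ = φ ∘ₗ ccup (cone1 V) (cst ψ) σ := by
    unfold ccup
    rw [lcomp_sum]
    apply Finset.sum_congr rfl
    intro i _
    rw [cst_eq_comp', LinearMap.comp_assoc]
  rw [h1, cone_ccup _ (by simp [cst]), cst_eq_comp', cst_eq_comp', LinearMap.comp_assoc]

theorem cst_congr {I : Type} {M : Type u} [AddCommGroup M] {a b : M} (h : a = b) (σ : Finset I) :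
    cst a σ = cst b σ := by rw [h]

theorem cst_add' {I : Type} {M : Type u} [AddCommGroup M] (a b : M) (σ : Finset I) :
    cst a σ + cst b σ = cst (a + b) σ := by
  unfold cst; split_ifs <;> simp

theorem cst_neg' {I : Type} {M : Type u} [AddCommGroup M] (a : M) (σ : Finset I) :
    -cst a σ = cst (-a) σ := by
  unfold cst; split_ifs <;> simp

theorem cst_zero' {I : Type} {M : Type u} [AddCommGroup M] (σ : Finset I) :
    cst (0 : M) σ = 0 := by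
  unfold cst; split_ifs <;> rfl

theorem d_eq_zero {X Y : Cplx Z} {n m : ℤ} (h : n + 1 = m) {φ : X.V →ₗ[K] Y.V}
    (hφ : Str X Y n φ) (e : Y.d ∘ₗ φ = ((n.negOnePow : ℤˣ) : ℤ) • (φ ∘ₗ X.d)) :
    Z.perf.d h hφ.hom = (0 : Z.sys.Hom X Y m) := by
  refine Subtype.ext (funext fun σ => ?_)
  refine (rawD_cst X.toGrD Y.toGrD n φ σ).trans ?_
  rw [e, sub_self]
  exact cst_zero' σ

theorem comp_eq_one {X Y : Cplx Z} {n m : ℤ} (h : n + m = 0) {φ : Y.V →ₗ[K] X.V}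
    {ψ : X.V →ₗ[K] Y.V} (hφ : Str Y X n φ) (hψ : Str X Y m ψ) (e : φ ∘ₗ ψ = LinearMap.id) :
    Z.perf.comp h hφ.hom hψ.hom = Z.perf.one X := by
  refine Subtype.ext (funext fun σ => ?_)
  refine (ccup_cst φ ψ σ).trans ?_
  rw [e]
  rfl

/-- the group structure, for complexes -/
local instance perfAcg (X Y : Cplx Z) (n : ℤ) : AddCommGroup (Z.perf.Hom X Y n) :=
  DGCat.acg (k := k) Z.perf X Y n

theorem comp_eq_zero {X Y W : Cplx Z} {n m l : ℤ} (h : n + m = l) {φ : Y.V →ₗ[K] W.V}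
    {ψ : X.V →ₗ[K] Y.V} (hφ : Str Y W n φ) (hψ : Str X Y m ψ) (e : φ ∘ₗ ψ = 0) :
    Z.perf.comp h hφ.hom hψ.hom = (0 : Z.sys.Hom X W l) := by
  refine Subtype.ext (funext fun σ => ?_)
  refine (ccup_cst φ ψ σ).trans ?_
  rw [e]
  exact cst_zero' σ

theorem comp_add_comp {X Y Y' : Cplx Z} {n m n' m' : ℤ} (h : n + m = 0) (h' : n' + m' = 0)
    {φ : Y.V →ₗ[K] X.V} {ψ : X.V →ₗ[K] Y.V} {φ' : Y'.V →ₗ[K] X.V} {ψ' : X.V →ₗ[K] Y'.V}
    (hφ : Str Y X n φ) (hψ : Str X Y m ψ) (hφ' : Str Y' X n' φ') (hψ' : Str X Y' m' ψ')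
    (e : φ ∘ₗ ψ + φ' ∘ₗ ψ' = LinearMap.id) :
    Z.perf.comp h hφ.hom hψ.hom + Z.perf.comp h' hφ'.hom hψ'.hom = Z.perf.one X := by
  refine Subtype.ext (funext fun σ => ?_)
  refine (congrArg₂ (· + ·) (ccup_cst φ ψ σ) (ccup_cst φ' ψ' σ)).trans ?_
  exact (cst_add' _ _ σ).trans (cst_congr e σ)

theorem d_eq_comp {X Y W : Cplx Z} {n m a b : ℤ} (h : n + 1 = m) (hab : a + b = m)
    {φ : X.V →ₗ[K] Y.V} {α : W.V →ₗ[K] Y.V} {β : X.V →ₗ[K] W.V}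
    (hφ : Str X Y n φ) (hα : Str W Y a α) (hβ : Str X W b β)
    (e : Y.d ∘ₗ φ - ((n.negOnePow : ℤˣ) : ℤ) • (φ ∘ₗ X.d) = α ∘ₗ β) :
    Z.perf.d h hφ.hom = Z.perf.comp hab hα.hom hβ.hom := by
  refine Subtype.ext (funext fun σ => ?_)
  refine (rawD_cst X.toGrD Y.toGrD n φ σ).trans ?_
  rw [e]
  exact (ccup_cst α β σ).symm

theorem d_eq_neg_comp {X Y W : Cplx Z} {n m a b : ℤ} (h : n + 1 = m) (hab : a + b = m)
    {φ : X.V →ₗ[K] Y.V} {α : W.V →ₗ[K] Y.V} {β : X.V →ₗ[K] W.V}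
    (hφ : Str X Y n φ) (hα : Str W Y a α) (hβ : Str X W b β)
    (e : Y.d ∘ₗ φ - ((n.negOnePow : ℤˣ) : ℤ) • (φ ∘ₗ X.d) = -(α ∘ₗ β)) :
    Z.perf.d h hφ.hom = -Z.perf.comp hab hα.hom hβ.hom := by
  refine Subtype.ext (funext fun σ => ?_)
  refine (rawD_cst X.toGrD Y.toGrD n φ σ).trans ?_
  rw [e, ← cst_neg']
  exact congrArg (fun t => -t) (ccup_cst α β σ).symm

/-- the identity from a complex to its shift -/
def toSh (X : Cplx Z) (n : ℤ) : X.V →ₗ[K] (X.shift n).V := (LinearMap.id : X.V →ₗ[K] X.V)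

/-- the identity from the shift to the complex -/
def ofSh (X : Cplx Z) (n : ℤ) : (X.shift n).V →ₗ[K] X.V := (LinearMap.id : X.V →ₗ[K] X.V)

theorem toSh_ofSh (X : Cplx Z) (n : ℤ) : toSh X n ∘ₗ ofSh X n = LinearMap.id := rfl

theorem ofSh_toSh (X : Cplx Z) (n : ℤ) : ofSh X n ∘ₗ toSh X n = LinearMap.id := rfl

theorem ofSh_d (X : Cplx Z) (n : ℤ) (v : (X.shift n).V) :
    ofSh X n ((X.shift n).d v) = ((n.negOnePow : ℤˣ) : ℤ) • X.d (ofSh X n v) := rfl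

theorem toSh_d (X : Cplx Z) (n : ℤ) (v : X.V) :
    (X.shift n).d (toSh X n v) = ((n.negOnePow : ℤˣ) : ℤ) • toSh X n (X.d v) := rfl

theorem ofSh_pr (X : Cplx Z) (n i : ℤ) (v : (X.shift n).V) :
    ofSh X n ((X.shift n).pr i v) = X.pr (i + n) (ofSh X n v) := rfl

theorem ofSh_lat (X : Cplx Z) (n : ℤ) (σ : Finset Z.I) (v : (X.shift n).V) :
    ofSh X n v ∈ X.lat σ ↔ v ∈ (X.shift n).lat σ := Iff.rfl

theorem str_toSh (X : Cplx Z) (n : ℤ) : Str X (X.shift n) (-n) (toSh X n) := by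
  refine ⟨fun σ _ v hv => hv, isDeg_iff.2 fun i v => ?_⟩
  change X.pr i v = X.pr (i + -n + n) v
  rw [neg_add_cancel_right]

theorem str_ofSh (X : Cplx Z) (n : ℤ) : Str (X.shift n) X n (ofSh X n) :=
  ⟨fun _ _ _ hv => hv, isDeg_iff.2 fun _ _ => rfl⟩

theorem str_ofSh' (X : Cplx Z) (n : ℤ) : Str (X.shift n) X (-(-n)) (ofSh X n) := by
  rw [neg_neg]
  exact str_ofSh X n

theorem d_toSh (X : Cplx Z) (n : ℤ) :
    (X.shift n).d ∘ₗ toSh X n = (((-n).negOnePow : ℤˣ) : ℤ) • (toSh X n ∘ₗ X.d) := by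
  rw [Int.negOnePow_neg]
  ext v
  exact toSh_d X n v

theorem d_ofSh (X : Cplx Z) (n : ℤ) :
    X.d ∘ₗ ofSh X n = ((n.negOnePow : ℤˣ) : ℤ) • (ofSh X n ∘ₗ (X.shift n).d) := by
  ext v
  rw [LinearMap.smul_apply, LinearMap.comp_apply, LinearMap.comp_apply, ofSh_d, smul_smul,
    negOnePow_mul_self, one_smul]

theorem d_ofSh' (X : Cplx Z) (n : ℤ) :
    X.d ∘ₗ ofSh X n = (((-(-n)).negOnePow : ℤˣ) : ℤ) • (ofSh X n ∘ₗ (X.shift n).d) := by
  rw [neg_neg]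
  exact d_ofSh X n

/-- the shift is a shift -/
theorem isShift_shift (X : Cplx Z) (n : ℤ) : IsShift Z.perf X (X.shift n) n :=
  ⟨(str_toSh X n).hom, (str_ofSh X n).hom, d_eq_zero _ _ (d_toSh X n), d_eq_zero _ _ (d_ofSh X n),
    comp_eq_one _ _ _ (ofSh_toSh X n), comp_eq_one _ _ _ (toSh_ofSh X n)⟩

/-- shifting back -/
theorem isShift_shift' (X : Cplx Z) (n : ℤ) : IsShift Z.perf (X.shift n) X (-n) :=
  ⟨(str_ofSh' X n).hom, (str_toSh X n).hom, d_eq_zero _ _ (d_ofSh' X n),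
    d_eq_zero _ _ (d_toSh X n), comp_eq_one _ _ _ (toSh_ofSh X n),
    comp_eq_one _ _ _ (ofSh_toSh X n)⟩

/-- the cone of a strict morphism, as in `ConeEx` -/
structure CData (X Y C : Cplx Z) (f : X.V →ₗ[K] Y.V) (e : C.V ≃ₗ[K] (X.V × Y.V)) : Prop where
  pr : ∀ i v, e (C.pr i v) = (X.pr (i + 1) (e v).1, Y.pr i (e v).2)
  d : ∀ v, e (C.d v) = (-X.d (e v).1, f (e v).1 + Y.d (e v).2)
  lat : ∀ σ : Finset Z.I, σ.Nonempty → ∀ v, v ∈ C.lat σ ↔ (e v).1 ∈ X.lat σ ∧ (e v).2 ∈ Y.lat σ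

/-- strict morphisms commuting with the differentials -/
theorem closed_hom {X Y : Cplx Z} {f : X.V →ₗ[K] Y.V} (hf : Str X Y 0 f)
    (hd : f ∘ₗ X.d = Y.d ∘ₗ f) : Z.perf.d (zero_add 1) hf.hom = (0 : Z.sys.Hom X Y 1) :=
  d_eq_zero _ hf (by rw [Int.negOnePow_zero, Units.val_one, one_smul, hd])

theorem CData.str_i {X Y C : Cplx Z} {f : X.V →ₗ[K] Y.V} {e : C.V ≃ₗ[K] (X.V × Y.V)}
    (hC : CData X Y C f e) : Str Y C 0 (e.symm.toLinearMap ∘ₗ LinearMap.inr K X.V Y.V) := by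
  refine ⟨fun σ hσ v hv => ?_, isDeg_iff.2 fun i v => e.injective ?_⟩
  · rw [hC.lat σ hσ]
    simpa using hv
  · rw [add_zero, hC.pr]
    simp

theorem CData.str_p {X Y C : Cplx Z} {f : X.V →ₗ[K] Y.V} {e : C.V ≃ₗ[K] (X.V × Y.V)}
    (hC : CData X Y C f e) : Str C Y 0 (LinearMap.snd K X.V Y.V ∘ₗ e.toLinearMap) := by
  refine ⟨fun σ hσ v hv => ((hC.lat σ hσ v).1 hv).2, isDeg_iff.2 fun i v => ?_⟩
  change (e (C.pr i v)).2 = Y.pr (i + 0) (e v).2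
  rw [hC.pr, add_zero]

theorem CData.str_j {X Y C : Cplx Z} {f : X.V →ₗ[K] Y.V} {e : C.V ≃ₗ[K] (X.V × Y.V)}
    (hC : CData X Y C f e) : Str X C (-1) (e.symm.toLinearMap ∘ₗ LinearMap.inl K X.V Y.V) := by
  refine ⟨fun σ hσ v hv => ?_, isDeg_iff.2 fun i v => e.injective ?_⟩
  · rw [hC.lat σ hσ]
    simpa using hv
  · rw [hC.pr]
    simp

theorem CData.str_q {X Y C : Cplx Z} {f : X.V →ₗ[K] Y.V} {e : C.V ≃ₗ[K] (X.V × Y.V)}
    (hC : CData X Y C f e) : Str C X 1 (LinearMap.fst K X.V Y.V ∘ₗ e.toLinearMap) := by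
  refine ⟨fun σ hσ v hv => ((hC.lat σ hσ v).1 hv).1, isDeg_iff.2 fun i v => ?_⟩
  change (e (C.pr i v)).1 = X.pr (i + 1) (e v).1
  rw [hC.pr]

theorem isCone_of {X Y C : Cplx Z} {f : X.V →ₗ[K] Y.V} {e : C.V ≃ₗ[K] (X.V × Y.V)}
    (hf : Str X Y 0 f) (hC : CData X Y C f e) : IsCone Z.perf hf.hom C := by
  refine ⟨hC.str_i.hom, hC.str_p.hom, hC.str_j.hom, hC.str_q.hom,
    comp_eq_one _ hC.str_p hC.str_i ?_, comp_eq_one _ hC.str_q hC.str_j ?_,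
    comp_add_comp _ _ hC.str_i hC.str_p hC.str_j hC.str_q ?_,
    comp_eq_zero _ hC.str_p hC.str_j ?_, comp_eq_zero _ hC.str_q hC.str_i ?_,
    d_eq_zero _ hC.str_i ?_, d_eq_zero _ hC.str_q ?_, d_eq_comp _ _ hC.str_j hC.str_i hf ?_,
    d_eq_neg_comp _ _ hC.str_p hf hC.str_q ?_⟩
  · ext v
    simp
  · ext v
    simp
  · ext v
    apply e.injective
    simp
  · ext v
    simp
  · ext v
    simp
  · ext v
    apply e.injective
    rw [Int.negOnePow_zero, Units.val_one, one_smul]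
    simp [hC.d]
  · ext v
    rw [Int.negOnePow_one]
    simp [hC.d]
  · ext v
    apply e.injective
    rw [Int.negOnePow_neg, Int.negOnePow_one]
    simp [hC.d]
  · ext v
    rw [Int.negOnePow_zero, Units.val_one, one_smul]
    simp [hC.d]

/-- strict retracts -/
theorem retract_of {X Y : Cplx Z} {i : Y.V →ₗ[K] X.V} {p : X.V →ₗ[K] Y.V} (hi : Str Y X 0 i)
    (hp : Str X Y 0 p) (hid : i ∘ₗ Y.d = X.d ∘ₗ i) (hpd : p ∘ₗ X.d = Y.d ∘ₗ p)
    (hpi : p ∘ₗ i = LinearMap.id) : Z.perf.Retract Y X := by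
  refine ⟨hi.hom, hp.hom, (0 : Z.sys.Hom Y Y (-1)), closed_hom hi hid, closed_hom hp hpd, ?_⟩
  refine Subtype.ext (funext fun σ => ?_)
  refine (ccup_cst p i σ).trans ?_
  change _ = cone1 Y.V σ + rawD Y.toGrD Y.toGrD (-1) 0 σ
  have h0 : rawD Y.toGrD Y.toGrD (-1) 0 σ = 0 := by simp [rawD, cdel]
  rw [h0, add_zero, hpi]
  rfl

theorem retract_of_hEquiv {C : DGCat.{u, u + 1, u} k} {X Y : C.Obj} (h : HEquiv C X Y) :
    C.Retract Y X := by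
  obtain ⟨f, g, s, t, hf, hg, h1, h2⟩ := h
  exact ⟨g, f, t, hg, hf, h2⟩

theorem retract_of_hEquiv' {C : DGCat.{u, u + 1, u} k} {X Y : C.Obj} (h : HEquiv C X Y) :
    C.Retract X Y := by
  obtain ⟨f, g, s, t, hf, hg, h1, h2⟩ := h
  exact ⟨f, g, s, hf, hg, h1⟩

/-- local splittings of exact sequences -/
theorem local_split (hL : LiftLem.{u}) {X Y W : Cplx Z} {f : X.V →ₗ[K] Y.V} {g : Y.V →ₗ[K] W.V}
    (hf : IsDeg (X := X.toGrD) (Y := Y.toGrD) 0 f) (hg : IsDeg (X := Y.toGrD) (Y := W.toGrD) 0 g)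
    (hfd : f ∘ₗ X.d = Y.d ∘ₗ f) (hgd : g ∘ₗ Y.d = W.d ∘ₗ g) (hinj : Function.Injective f)
    (hex : ∀ y, g y = 0 ↔ ∃ x, f x = y) {σ : Finset Z.I}
    (hσ : σ.Nonempty) (hl1 : ∀ x, f x ∈ Y.lat σ ↔ x ∈ X.lat σ)
    (hl2 : ∀ w, w ∈ W.lat σ ↔ ∃ y ∈ Y.lat σ, g y = w) :
    ∃ (s : W.V →ₗ[K] Y.V) (ρ : Y.V →ₗ[K] X.V) (ξ : W.V →ₗ[K] X.V),
      (∀ v ∈ W.lat σ, s v ∈ Y.lat σ) ∧ (∀ v ∈ Y.lat σ, ρ v ∈ X.lat σ) ∧
      (∀ v ∈ W.lat σ, ξ v ∈ X.lat σ) ∧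
      (∀ i v, s (W.pr i v) = Y.pr i (s v)) ∧ (∀ i v, ρ (Y.pr i v) = X.pr i (ρ v)) ∧
      (∀ i v, ξ (W.pr i v) = X.pr (i + 1) (ξ v)) ∧ (∀ w, g (s w) = w) ∧ (∀ x, ρ (f x) = x) ∧
      (∀ w, ρ (s w) = 0) ∧ (∀ y, f (ρ y) = y - s (g y)) ∧
      (∀ w, f (ξ w) = Y.d (s w) - s (W.d w)) ∧ (∀ y, ρ (Y.d y) - X.d (ρ y) = ξ (g y)) := by
  have hfi : ∀ i v, f (X.pr i v) = Y.pr i (f v) := by
    intro i v
    have := isDeg_iff.1 hf i v
    rwa [add_zero] at this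
  have hgi : ∀ i v, g (Y.pr i v) = W.pr i (g v) := by
    intro i v
    have := isDeg_iff.1 hg i v
    rwa [add_zero] at this
  have hfd' : ∀ x, f (X.d x) = Y.d (f x) := fun x => congrArg (fun f => f x) hfd
  have hgd' : ∀ x, g (Y.d x) = W.d (g x) := fun x => congrArg (fun f => f x) hgd
  have hgf : ∀ x, g (f x) = 0 := fun x => (hex _).2 ⟨x, rfl⟩
  obtain ⟨s0, hs0, hgs0⟩ := hL k K Z W σ hσ Y.V W.V (Y.lat σ) (W.lat σ) g LinearMap.id
    (fun v hv => hv) (fun w hw => (hl2 w).1 hw)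
  have hgs0' : ∀ w, g (s0 w) = w := fun w => congrArg (fun f => f w) hgs0
  -- the section of degree 0
  set s : W.V →ₗ[K] Y.V := ∑ i ∈ Finset.Icc (-(W.bd : ℤ)) W.bd, Y.pr i ∘ₗ s0 ∘ₗ W.pr i with hs
  have hsv : ∀ w, s w = ∑ i ∈ Finset.Icc (-(W.bd : ℤ)) W.bd, Y.pr i (s0 (W.pr i w)) := by
    intro w
    rw [hs]
    simp only [LinearMap.sum_apply, LinearMap.comp_apply]
  have hWpp : ∀ i j w, W.pr i (W.pr j w) = if i = j then W.pr i w else 0 := by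
    intro i j w
    have := congrArg (fun f => f w) (W.pr_pr i j)
    simp only [LinearMap.comp_apply] at this
    rw [this]
    split_ifs <;> rfl
  have hYpp : ∀ i j w, Y.pr i (Y.pr j w) = if i = j then Y.pr i w else 0 := by
    intro i j w
    have := congrArg (fun f => f w) (Y.pr_pr i j)
    simp only [LinearMap.comp_apply] at this
    rw [this]
    split_ifs <;> rfl
  have hspr : ∀ j v, s (W.pr j v) = Y.pr j (s v) := by
    intro j v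
    rw [hsv, hsv, map_sum]
    apply Finset.sum_congr rfl
    intro i _
    rw [hWpp, hYpp]
    by_cases h : i = j
    · subst h
      simp
    · rw [if_neg h, if_neg (Ne.symm h), map_zero, map_zero]
  have hgs : ∀ w, g (s w) = w := by
    intro w
    rw [hsv, map_sum]
    have h1 : ∀ i ∈ Finset.Icc (-(W.bd : ℤ)) W.bd, g (Y.pr i (s0 (W.pr i w))) = W.pr i w := by
      intro i _
      rw [hgi, hgs0', hWpp, if_pos rfl]
    rw [Finset.sum_congr rfl h1]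
    have h2 := congrArg (fun f => f w) W.pr_sum
    simpa only [LinearMap.sum_apply, LinearMap.id_apply] using h2
  have hslat : ∀ v ∈ W.lat σ, s v ∈ Y.lat σ := by
    intro v hv
    rw [hsv]
    exact Submodule.sum_mem _ fun i _ => Y.lat_pr σ i _ (hs0 _ (W.lat_pr σ i _ hv))
  -- the retraction
  have hex1 : ∀ y, ∃ x, f x = y - s (g y) := by
    intro y
    rw [← hex, map_sub, hgs, sub_self]
  choose ρ0 hρ0 using hex1
  let ρ : Y.V →ₗ[K] X.V :=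
    { toFun := ρ0
      map_add' := fun a b => hinj (by
        rw [map_add, hρ0, hρ0, hρ0, map_add, map_add]; abel)
      map_smul' := fun r a => hinj (by
        rw [map_smul, hρ0, hρ0, map_smul, map_smul, smul_sub]; rfl) }
  have hρ : ∀ y, f (ρ y) = y - s (g y) := hρ0
  have hρf : ∀ x, ρ (f x) = x := fun x => hinj (by rw [hρ, hgf, map_zero, sub_zero])
  have hρs : ∀ w, ρ (s w) = 0 := fun w => hinj (by rw [hρ, hgs, sub_self, map_zero])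
  have hρpr : ∀ i v, ρ (Y.pr i v) = X.pr i (ρ v) := by
    intro i v
    apply hinj
    rw [hρ, hfi, hρ, hgi, hspr, map_sub]
  have hρlat : ∀ v ∈ Y.lat σ, ρ v ∈ X.lat σ := by
    intro v hv
    rw [← hl1, hρ]
    exact (Y.lat σ).sub_mem hv (hslat _ ((hl2 _).2 ⟨v, hv, rfl⟩))
  -- the connecting map
  have hYd : ∀ i v, Y.d (Y.pr i v) = Y.pr (i + 1) (Y.d v) := fun i v =>
    congrArg (fun f => f v) (Y.d_pr i)
  let ξ : W.V →ₗ[K] X.V := ρ ∘ₗ Y.d ∘ₗ s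
  have hξv : ∀ w, ξ w = ρ (Y.d (s w)) := fun _ => rfl
  have hξ : ∀ w, f (ξ w) = Y.d (s w) - s (W.d w) := by
    intro w
    rw [hξv, hρ, hgd', hgs]
  refine ⟨s, ρ, ξ, hslat, hρlat, fun v hv => hρlat _ (Y.lat_d σ _ (hslat v hv)), hspr, hρpr, ?_,
    hgs, hρf, hρs, hρ, hξ, ?_⟩
  · intro i v
    rw [hξv, hξv, hspr, hYd, hρpr]
  · intro y
    apply hinj
    rw [map_sub, hρ, hfd', hρ, hξ, hgd', map_sub]
    abel

end

end Pool.Agent.Helper28.RZ
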